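import Mathlib

/-!
The elements `e_j = p^(2j) / j!` and truncated exponential sums in a local domain of characteristic
zero (helper728, after helper867).
-/

set_option autoImplicit false

namespace Pool.Agent.Y728

open Finset Polynomial

/-- natural numbers prime to `p` are units and `p` lies in the Jacobson radical -/
structure RP (R : Type*) [CommRing R] (p : ℕ) : Prop where
  pp : p.Prime
  nat : ∀ m : ℕ, ¬ p ∣ m → IsUnit (m : R)
  one : ∀ x : R, IsUnit (1 + (p : R) * x)

variable {R : Type*} [CommRing R] [IsDomain R] [CharZero R] {p : ℕ}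

theorem val_factorial_le (hp : p.Prime) (j : ℕ) : padicValNat p j.factorial ≤ j - 1 := by
  have : Fact p.Prime := ⟨hp⟩
  rcases Nat.eq_zero_or_pos j with h0 | h0
  · subst h0; simp
  · have h1 := sub_one_mul_padicValNat_factorial_lt_of_ne_zero p (n := j) (by omega)
    have h2 : 1 ≤ p - 1 := by
      have := hp.two_le
      omega
    have h3 : 1 * padicValNat p j.factorial ≤ (p - 1) * padicValNat p j.factorial :=
      Nat.mul_le_mul_right _ h2
    omega

theorem RP.p_ne (hR : RP R p) : (p : R) ≠ 0 := Nat.cast_ne_zero.2 hR.pp.ne_zero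

theorem RP.nat_split (hR : RP R p) {m : ℕ} (hm : m ≠ 0) : ∃ u : Rˣ,
    (m : R) = (p : R) ^ padicValNat p m * (u : R) := by
  have : Fact p.Prime := ⟨hR.pp⟩
  obtain ⟨c, hc⟩ : p ^ padicValNat p m ∣ m := pow_padicValNat_dvd
  have hcp : ¬ p ∣ c := by
    intro hd
    obtain ⟨r, hr⟩ := hd
    have h1 : p ^ (padicValNat p m + 1) ∣ m := by
      refine ⟨r, ?_⟩
      rw [pow_succ]
      conv_lhs => rw [hc, hr]
      ring
    have h2 := (padicValNat_dvd_iff_le hm).1 h1
    omega
  obtain ⟨u, hu⟩ := hR.nat c hcp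
  refine ⟨u, ?_⟩
  rw [hu]
  conv_lhs => rw [hc]
  push_cast
  ring

/-- cancellation of natural numbers -/
theorem RP.dvd_of_natCast_mul (hR : RP R p) {m v E : ℕ} (hm : m ≠ 0) (hv : padicValNat p m ≤ v)
    {x : R} (h : (p : R) ^ E ∣ (m : R) * x) : (p : R) ^ (E - v) ∣ x := by
  obtain ⟨u, hu⟩ := hR.nat_split hm
  rw [hu] at h
  obtain ⟨w, hw⟩ : ∃ w, w = padicValNat p m := ⟨_, rfl⟩
  rw [← hw] at h hv
  rcases le_or_gt E w with hE | hE
  · have : E - v = 0 := by omega
    rw [this, pow_zero]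
    exact one_dvd _
  · have e1 : (p : R) ^ E = (p : R) ^ w * (p : R) ^ (E - w) := by
      rw [← pow_add]; congr 1; omega
    rw [e1, mul_assoc, mul_dvd_mul_iff_left (pow_ne_zero _ hR.p_ne)] at h
    have h2 : (p : R) ^ (E - w) ∣ x := by
      obtain ⟨c, hc⟩ := h
      refine ⟨(↑(u⁻¹) : R) * c, ?_⟩
      calc x = (↑(u⁻¹) : R) * ((u : R) * x) := by rw [← mul_assoc, Units.inv_mul, one_mul]
        _ = _ := by rw [hc]; ring
    exact (pow_dvd_pow _ (by omega)).trans h2

theorem exists_ee (hR : RP R p) (j : ℕ) :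
    ∃ e : R, (j.factorial : R) * e = (p : R) ^ (2 * j) ∧ (p : R) ^ (2 * j - (j - 1)) ∣ e := by
  have hv := val_factorial_le hR.pp j
  obtain ⟨u, hu⟩ := hR.nat_split (Nat.factorial_ne_zero j)
  obtain ⟨w, hw⟩ : ∃ w, w = padicValNat p j.factorial := ⟨_, rfl⟩
  rw [← hw] at hv hu
  have hwj : w ≤ 2 * j := by omega
  refine ⟨(p : R) ^ (2 * j - w) * (↑(u⁻¹) : R), ?_, ?_⟩
  · have h5 : (p : R) ^ (2 * j) = (p : R) ^ w * (p : R) ^ (2 * j - w) := by
      rw [← pow_add]; congr 1; omega
    rw [hu, h5]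
    have h7 : (u : R) * (↑(u⁻¹) : R) = 1 := u.mul_inv
    calc (p : R) ^ w * (u : R) * ((p : R) ^ (2 * j - w) * (↑(u⁻¹) : R))
        = (p : R) ^ w * (p : R) ^ (2 * j - w) * ((u : R) * (↑(u⁻¹) : R)) := by ring
      _ = _ := by rw [h7, mul_one]
  · exact Dvd.dvd.mul_right (pow_dvd_pow _ (by omega)) _

open Classical in
variable (R) in
/-- The element `p^(2j) / j!`. -/
noncomputable def ee (p : ℕ) (j : ℕ) : R :=
  if h : ∃ e : R, (j.factorial : R) * e = (p : R) ^ (2 * j) ∧ (p : R) ^ (2 * j - (j - 1)) ∣ e then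
    h.choose else 0

theorem ee_spec (hR : RP R p) (j : ℕ) :
    (j.factorial : R) * ee R p j = (p : R) ^ (2 * j) ∧ (p : R) ^ (2 * j - (j - 1)) ∣ ee R p j := by
  have h := exists_ee hR j
  unfold ee
  rw [dif_pos h]
  exact h.choose_spec

theorem factorial_mul_ee (hR : RP R p) (j : ℕ) :
    (j.factorial : R) * ee R p j = (p : R) ^ (2 * j) := (ee_spec hR j).1

theorem dvd_ee' (hR : RP R p) (j : ℕ) : (p : R) ^ (2 * j - (j - 1)) ∣ ee R p j := (ee_spec hR j).2

theorem dvd_ee (hR : RP R p) (j : ℕ) : (p : R) ^ j ∣ ee R p j :=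
  (pow_dvd_pow _ (by omega)).trans (dvd_ee' hR j)

theorem natCast_ne_zero {n : ℕ} (hn : n ≠ 0) : (n : R) ≠ 0 := Nat.cast_ne_zero.2 hn

theorem ee_mul_ee (hR : RP R p) (i j : ℕ) :
    ee R p i * ee R p j = ((i + j).choose i : R) * ee R p (i + j) := by
  have h1 := factorial_mul_ee hR i
  have h2 := factorial_mul_ee hR j
  have h3 := factorial_mul_ee hR (i + j)
  have h4 : ((i + j).choose i * i.factorial * j.factorial : ℕ) = (i + j).factorial := by
    have := Nat.add_choose_mul_factorial_mul_factorial i j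
    rwa [← Nat.choose_symm_add] at this
  have h5 : (((i + j).choose i : ℕ) : R) * (i.factorial : R) * (j.factorial : R)
      = ((i + j).factorial : R) := by exact_mod_cast congrArg (Nat.cast (R := R)) h4
  have hi : (i.factorial : R) ≠ 0 := natCast_ne_zero (Nat.factorial_ne_zero i)
  have hj : (j.factorial : R) ≠ 0 := natCast_ne_zero (Nat.factorial_ne_zero j)
  apply mul_left_cancel₀ (mul_ne_zero hi hj)
  calc (i.factorial : R) * (j.factorial : R) * (ee R p i * ee R p j)
      = ((i.factorial : R) * ee R p i) * ((j.factorial : R) * ee R p j) := by ring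
    _ = (p : R) ^ (2 * (i + j)) := by rw [h1, h2, ← pow_add]; congr 1; ring
    _ = ((i + j).factorial : R) * ee R p (i + j) := h3.symm
    _ = (((i + j).choose i : ℕ) : R) * (i.factorial : R) * (j.factorial : R)
          * ee R p (i + j) := by rw [h5]
    _ = _ := by ring

theorem ee_zero (hR : RP R p) : ee R p 0 = 1 := by
  have := factorial_mul_ee hR 0
  simpa using this

theorem ee_one (hR : RP R p) : ee R p 1 = (p : R) ^ 2 := by
  have := factorial_mul_ee hR 1
  simpa using this

/-- Truncated exponential sum `∑_{j<K} e_j x^j`. -/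
noncomputable def EE (p : ℕ) (K : ℕ) (x : R) : R := ∑ j ∈ range K, ee R p j * x ^ j

theorem EE_add (hR : RP R p) (K : ℕ) (x y : R) :
    (p : R) ^ K ∣ EE p K x * EE p K y - EE p K (x + y) := by
  -- rewrite `EE (x+y)` as a sum over pairs
  have h1 : EE p K (x + y)
      = ∑ q ∈ (range K ×ˢ range K).filter (fun q => q.1 + q.2 < K),
          ee R p q.1 * ee R p q.2 * (x ^ q.1 * y ^ q.2) := by
    have h2 : ∀ n ∈ range K, ee R p n * (x + y) ^ n
        = ∑ q ∈ antidiagonal n, ee R p q.1 * ee R p q.2 * (x ^ q.1 * y ^ q.2) := by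
      intro n _
      rw [(Commute.all x y).add_pow', Finset.mul_sum]
      apply Finset.sum_congr rfl
      intro q hq
      rw [HasAntidiagonal.mem_antidiagonal] at hq
      subst hq
      rw [ee_mul_ee hR, nsmul_eq_mul]
      ring
    rw [EE, Finset.sum_congr rfl h2]
    rw [Finset.sum_sigma']
    refine Finset.sum_nbij' (fun s => s.2) (fun q => ⟨q.1 + q.2, q⟩) ?_ ?_ ?_ ?_ ?_
    · rintro ⟨n, q⟩ hq
      simp only [mem_sigma, mem_range, HasAntidiagonal.mem_antidiagonal] at hq
      simp only [mem_filter, mem_product, mem_range]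
      omega
    · rintro q hq
      simp only [mem_filter, mem_product, mem_range] at hq
      simp only [mem_sigma, mem_range, HasAntidiagonal.mem_antidiagonal]
      exact ⟨hq.2, trivial⟩
    · rintro ⟨n, q⟩ hq
      simp only [mem_sigma, mem_range, HasAntidiagonal.mem_antidiagonal] at hq
      obtain ⟨_, rfl⟩ := hq
      rfl
    · rintro q hq
      rfl
    · rintro ⟨n, q⟩ hq
      rfl
  have h3 : EE p K x * EE p K y
      = ∑ q ∈ (range K ×ˢ range K), ee R p q.1 * ee R p q.2 * (x ^ q.1 * y ^ q.2) := by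
    rw [EE, EE, Finset.sum_mul_sum, Finset.sum_product]
    apply Finset.sum_congr rfl
    intro i _
    apply Finset.sum_congr rfl
    intro j _
    ring
  rw [h3, h1, ← Finset.sum_filter_add_sum_filter_not (range K ×ˢ range K)
    (fun q => q.1 + q.2 < K), add_sub_cancel_left]
  apply Finset.dvd_sum
  intro q hq
  simp only [mem_filter, mem_product, mem_range, not_lt] at hq
  apply Dvd.dvd.mul_right
  have h4 : (p : R) ^ (q.1 + q.2) ∣ ee R p q.1 * ee R p q.2 := by
    rw [pow_add]
    exact mul_dvd_mul (dvd_ee hR _) (dvd_ee hR _)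
  exact (pow_dvd_pow _ (by omega)).trans h4

theorem EE_zero (hR : RP R p) {K : ℕ} (hK : 0 < K) : EE p K (0 : R) = 1 := by
  rw [EE, Finset.sum_eq_single 0]
  · simp [ee_zero hR]
  · intro b _ hb
    simp [hb]
  · intro h
    exact absurd (mem_range.2 hK) h

theorem EE_nsmul (hR : RP R p) {K : ℕ} (hK : 0 < K) (n : ℕ) (x : R) :
    (p : R) ^ K ∣ EE p K (n * x) - (EE p K x) ^ n := by
  induction n with
  | zero =>
    have e : ((0 : ℕ) : R) * x = 0 := by simp
    rw [e, EE_zero hR hK]
    simp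
  | succ n ih =>
    have h1 := EE_add hR K (n * x) x
    have h2 : EE p K (((n + 1 : ℕ) : R) * x) - EE p K x ^ (n + 1)
        = (EE p K (n * x) - EE p K x ^ n) * EE p K x
          - (EE p K (n * x) * EE p K x - EE p K (n * x + x)) := by
      have e : ((n + 1 : ℕ) : R) * x = n * x + x := by push_cast; ring
      rw [e]
      ring
    rw [h2]
    exact dvd_sub (Dvd.dvd.mul_right ih _) h1

/-- `EE x = 1 + p² x (1 + p y)` -/
theorem EE_spec (hR : RP R p) {K : ℕ} (hK : 2 ≤ K) (x : R) :
    ∃ y : R, EE p K x = 1 + (p : R) ^ 2 * x * (1 + p * y) := by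
  obtain ⟨L, rfl⟩ : ∃ L, K = L + 2 := ⟨K - 2, by omega⟩
  have h1 : (p : R) ^ 3 * x ∣ EE p (L + 2) x - 1 - (p : R) ^ 2 * x := by
    rw [EE, Finset.sum_range_succ', Finset.sum_range_succ']
    simp only [zero_add, pow_zero, mul_one, ee_zero hR, ee_one hR, pow_one]
    have : ∑ k ∈ range L, ee R p (k + 1 + 1) * x ^ (k + 1 + 1) + (p : R) ^ 2 * x + 1 - 1
        - (p : R) ^ 2 * x = ∑ k ∈ range L, ee R p (k + 1 + 1) * x ^ (k + 1 + 1) := by ring
    rw [this]
    apply Finset.dvd_sum
    intro k _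
    refine mul_dvd_mul ((pow_dvd_pow _ (by omega)).trans (dvd_ee' hR _)) ?_
    exact dvd_pow_self _ (by omega)
  obtain ⟨y, hy⟩ := h1
  exact ⟨y, by linear_combination hy⟩

theorem EE_unit (hR : RP R p) {K : ℕ} (hK : 2 ≤ K) (x : R) : IsUnit (EE p K x) := by
  obtain ⟨y, hy⟩ := EE_spec hR hK x
  have e : EE p K x = 1 + (p : R) * (p * x * (1 + p * y)) := by rw [hy]; ring
  rw [e]
  exact hR.one _

/-- injectivity -/
theorem dvd_of_EE (hR : RP R p) {K E : ℕ} (hK : 2 ≤ K) {x : R}
    (h : (p : R) ^ (E + 2) ∣ EE p K x - 1) : (p : R) ^ E ∣ x := by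
  obtain ⟨y, hy⟩ := EE_spec hR hK x
  obtain ⟨u, hu⟩ := hR.one y
  have e : EE p K x - 1 = (p : R) ^ 2 * (x * u) := by rw [hy, hu]; ring
  rw [e, add_comm, pow_add, mul_dvd_mul_iff_left (pow_ne_zero _ hR.p_ne)] at h
  obtain ⟨c, hc⟩ := h
  refine ⟨c * (↑(u⁻¹) : R), ?_⟩
  calc x = x * u * (↑(u⁻¹) : R) := by rw [mul_assoc, Units.mul_inv, mul_one]
    _ = _ := by rw [hc]; ring

/-- the difference of two values -/
theorem EE_sub (hR : RP R p) {K : ℕ} (x t : R) :
    (p : R) ∣ EE p K (x + t) - EE p K x ∧ ∃ y, EE p K (x + t) - EE p K x = t * y := by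
  have key : ∀ j, ∃ y, (x + t) ^ j - x ^ j = t * y := by
    intro j
    have := sub_dvd_pow_sub_pow (x + t) x j
    rw [add_sub_cancel_left] at this
    obtain ⟨y, hy⟩ := this
    exact ⟨y, hy⟩
  choose y hy using key
  have e : EE p K (x + t) - EE p K x = ∑ j ∈ range K, ee R p j * (t * y j) := by
    rw [EE, EE, ← Finset.sum_sub_distrib]
    refine Finset.sum_congr rfl fun j _ => ?_
    rw [← mul_sub, hy]
  refine ⟨?_, ∑ j ∈ range K, ee R p j * y j, ?_⟩
  · rw [e]
    refine Finset.dvd_sum fun j _ => ?_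
    rcases Nat.eq_zero_or_pos j with h0 | h0
    · subst h0
      have h1 := hy 0
      simp only [pow_zero, sub_self] at h1
      rw [← h1, mul_zero]
      exact dvd_zero _
    · exact Dvd.dvd.mul_right ((dvd_pow_self _ h0.ne').trans (dvd_ee hR j)) _
  · rw [e, Finset.mul_sum]
    exact Finset.sum_congr rfl fun j _ => by ring

/-- logarithms -/
theorem exists_log (hR : RP R p) {K : ℕ} (hK : 2 ≤ K) {α : R} (hα : (p : R) ^ 2 ∣ α - 1) (E : ℕ) :
    ∃ a : R, (p : R) ^ E ∣ α - EE p K a := by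
  -- Newton iteration with respect to the unit `1 + p y`
  have main : ∀ m : ℕ, ∃ a : R, (p : R) ^ (m + 2) ∣ α - EE p K a := by
    intro m
    induction m with
    | zero =>
      refine ⟨0, ?_⟩
      rw [EE_zero hR (by omega)]
      exact hα
    | succ m ih =>
      obtain ⟨a, c, hc⟩ := ih
      -- `EE (a + p^m d) = EE a + p^(m+2) d (unit) mod p^(m+3)`
      refine ⟨a + (p : R) ^ m * c, ?_⟩
      have h1 : (p : R) ^ (m + 3) ∣ EE p K (a + (p : R) ^ m * c) - EE p K a -
          (p : R) ^ (m + 2) * c := by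
        have key : ∀ j, ∃ y, (a + (p : R) ^ m * c) ^ j - a ^ j = (p : R) ^ m * y := by
          intro j
          have := sub_dvd_pow_sub_pow (a + (p : R) ^ m * c) a j
          rw [add_sub_cancel_left] at this
          obtain ⟨y, hy⟩ := this
          exact ⟨c * y, by rw [hy]; ring⟩
        choose y hy using key
        obtain ⟨L, rfl⟩ : ∃ L, K = L + 2 := ⟨K - 2, by omega⟩
        have e : EE p (L + 2) (a + (p : R) ^ m * c) - EE p (L + 2) a - (p : R) ^ (m + 2) * c =
            ∑ j ∈ range L, ee R p (j + 2) * ((p : R) ^ m * y (j + 2)) := by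
          rw [EE, EE, Finset.sum_range_succ', Finset.sum_range_succ', Finset.sum_range_succ' _
            (L + 1), Finset.sum_range_succ' _ L]
          have e2 : ∑ j ∈ range L, ee R p (j + 2) * ((p : R) ^ m * y (j + 2)) =
              ∑ j ∈ range L, ee R p (j + 1 + 1) * (a + (p : R) ^ m * c) ^ (j + 1 + 1) -
              ∑ j ∈ range L, ee R p (j + 1 + 1) * a ^ (j + 1 + 1) := by
            rw [← Finset.sum_sub_distrib]
            refine Finset.sum_congr rfl fun j _ => ?_
            rw [← mul_sub, hy]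
          rw [e2]
          simp only [zero_add, pow_zero, mul_one, ee_zero hR, ee_one hR, pow_one]
          ring
        rw [e]
        refine Finset.dvd_sum fun j _ => ?_
        rw [mul_left_comm]
        have e3 : (p : R) ^ (m + 3) = (p : R) ^ m * (p : R) ^ 3 := by rw [pow_add]
        rw [e3]
        refine mul_dvd_mul_left _ (Dvd.dvd.mul_right ?_ _)
        exact (pow_dvd_pow _ (by omega)).trans (dvd_ee' hR _)
      obtain ⟨z, hz⟩ := h1
      refine ⟨-z, ?_⟩
      have e4 : (p : R) ^ (m + 1 + 2) = (p : R) ^ (m + 3) := by congr 1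
      rw [e4]
      linear_combination hc - hz
  rcases le_or_gt E 2 with h | h
  · obtain ⟨a, ha⟩ := main 0
    exact ⟨a, (pow_dvd_pow _ (by omega)).trans ha⟩
  · obtain ⟨a, ha⟩ := main (E - 2)
    exact ⟨a, by rwa [show E - 2 + 2 = E by omega] at ha⟩

/-- Exponential polynomial `∑_{j<K} e_j c^j X^j`. -/
noncomputable def EP (p : ℕ) (K : ℕ) (c : R) : R[X] :=
  ∑ j ∈ range K, monomial j (ee R p j * c ^ j)

theorem EP_eval (K : ℕ) (c z : R) : (EP p K c).eval z = EE p K (c * z) := by
  rw [EP, EE, Polynomial.eval_finsetSum]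
  apply Finset.sum_congr rfl
  intro j _
  rw [Polynomial.eval_monomial, mul_pow]
  ring

theorem EP_coeff_dvd (hR : RP R p) (K : ℕ) (c : R) (k : ℕ) :
    (p : R) ^ k ∣ (EP p K c).coeff k := by
  rw [EP, Polynomial.finsetSum_coeff]
  apply Finset.dvd_sum
  intro j _
  rw [Polynomial.coeff_monomial]
  split_ifs with h
  · subst h
    exact Dvd.dvd.mul_right (dvd_ee hR _) _
  · exact dvd_zero _

/-- Taylor coefficients of the exponential polynomial. -/
theorem EP_taylor (hR : RP R p) (K : ℕ) (c z : R) (i : ℕ) :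
    (p : R) ^ K ∣
      ((EP p K c).comp (X + C z)).coeff i - ee R p i * c ^ i * EE p K (c * z) := by
  have h1 : ((EP p K c).comp (X + C z)).coeff i
      = ∑ n ∈ range K, ee R p n * c ^ n * (z ^ (n - i) * (n.choose i : R)) := by
    rw [EP, Polynomial.sum_comp, Polynomial.finsetSum_coeff]
    apply Finset.sum_congr rfl
    intro n _
    rw [Polynomial.monomial_comp, Polynomial.coeff_C_mul, Polynomial.coeff_X_add_C_pow]
  -- express the sum through `m = n - i`
  have h2 : ∑ n ∈ range K, ee R p n * c ^ n * (z ^ (n - i) * (n.choose i : R))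
      = ∑ m ∈ range (K - i), ee R p i * ee R p m * c ^ (i + m) * z ^ m := by
    rcases le_or_gt K i with hKi | hKi
    · rw [Nat.sub_eq_zero_of_le hKi, Finset.range_zero, Finset.sum_empty]
      apply Finset.sum_eq_zero
      intro n hn
      rw [mem_range] at hn
      rw [Nat.choose_eq_zero_of_lt (by omega)]
      simp
    · obtain ⟨L, rfl⟩ : ∃ L, K = i + L := ⟨K - i, by omega⟩
      rw [Finset.sum_range_add, Nat.add_sub_cancel_left]
      have h3 : ∑ n ∈ range i, ee R p n * c ^ n * (z ^ (n - i) * (n.choose i : R)) = 0 := by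
        apply Finset.sum_eq_zero
        intro n hn
        rw [mem_range] at hn
        rw [Nat.choose_eq_zero_of_lt (by omega)]
        simp
      rw [h3, zero_add]
      apply Finset.sum_congr rfl
      intro m _
      rw [ee_mul_ee hR, Nat.add_sub_cancel_left]
      ring
  have h4 : ee R p i * c ^ i * EE p K (c * z)
      = ∑ m ∈ range K, ee R p i * ee R p m * c ^ (i + m) * z ^ m := by
    rw [EE, Finset.mul_sum]
    apply Finset.sum_congr rfl
    intro m _
    rw [mul_pow, pow_add]
    ring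
  rw [h1, h2, h4]
  have h5 : range (K - i) ⊆ range K := Finset.range_subset_range.2 (by omega)
  rw [← Finset.sum_sdiff h5, sub_add_cancel_right, dvd_neg]
  apply Finset.dvd_sum
  intro m hm
  rw [mem_sdiff, mem_range, mem_range] at hm
  apply Dvd.dvd.mul_right
  apply Dvd.dvd.mul_right
  have h6 : (p : R) ^ (i + m) ∣ ee R p i * ee R p m := by
    rw [pow_add]
    exact mul_dvd_mul (dvd_ee hR _) (dvd_ee hR _)
  exact (pow_dvd_pow _ (by omega)).trans h6

end Pool.Agent.Y728
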