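import Pool.Agent.H59.L.S8.Y728.NumPar
import Pool.Agent.H59.L.S8.Y96.SumBig

/-!
Given a set `S` of primes, only few primes occur in the points of large height of the class `InP`
(helper728, after helper867).
-/

set_option autoImplicit false

namespace Pool.Agent.Y728

open Finset NumberField IsDedekindDomain Pool.Agent.H691R3 Pool.Agent.TH876.Loc
open Pool.Agent.TH876.KR (InP aw log_Nv_pos' log_nn)

/-- the size of `M` -/
theorem num_M {κ B k0 D m h r : ℕ} {L lam η η1 N0 : ℝ} (hlam : lam = Real.log L) (hL : 100 ≤ L)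
    (hκη : 100 ≤ κ * η) (hBup : (B : ℝ) ≤ 2 * L) (hη1 : 100 * η1 ≤ η)
    (hlamL : lam ^ 2 ≤ η1 * L) (hlam100 : 100 ≤ lam) (hk0 : (k0 : ℝ) ≤ lam)
    (hD2 : (D : ℝ) + 2 ≤ lam) (hh : (h : ℝ) + 2 ≤ lam) (hr : (r : ℝ) + 1 ≤ lam)
    (hm : (m : ℝ) * lam ≤ 3 * L) {Ml d' g : ℕ} (hMl : Ml = 2 ^ (g * (m + r + 1) + d'))
    (hg : (2 : ℝ) ^ g ≤ N0 * L) (hg2 : (g : ℝ) * Real.log 2 ≤ 1.1 * lam)
    (hd' : (d' : ℝ) ≤ 4 * ((B / κ : ℕ) : ℝ) + 1.2 * lam ^ 2 + 5 * lam) :
    (k0 : ℝ) * ((D + m : ℕ) : ℝ) * (((D : ℝ) + 2) * (((Ml : ℝ) + h + 1) * (L + 1))) ≤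
      (N0 * L) ^ m * Real.exp (η * L) := by
  have g1 : (0.6931 : ℝ) < Real.log 2 := by linarith [Real.log_two_gt_d9]
  have g2 : Real.log 2 < 0.6932 := by linarith [Real.log_two_lt_d9]
  have hLpos : 0 < L := by linarith
  have hlam0 : 0 < lam := by linarith
  have hexplam : Real.exp lam = L := by rw [hlam, Real.exp_log hLpos]
  have hlamL' : lam ≤ L := by
    rw [← hexplam]
    linarith [Real.add_one_le_exp lam]
  have hMl1 : (1 : ℝ) ≤ Ml := by
    have : 1 ≤ Ml := by rw [hMl]; exact Nat.one_le_two_pow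
    exact_mod_cast this
  have hm0 : (0 : ℝ) ≤ m := Nat.cast_nonneg _
  have hmL : (m : ℝ) ≤ L := by nlinarith
  -- the polynomial factors
  have hA : (k0 : ℝ) * ((D + m : ℕ) : ℝ) * (((D : ℝ) + 2) * (((Ml : ℝ) + h + 1) * (L + 1))) ≤
      Real.exp (6 * lam) * Ml := by
    have e1 : ((D + m : ℕ) : ℝ) ≤ 2 * L := by push_cast; linarith
    have e2 : (Ml : ℝ) + h + 1 ≤ lam * Ml := by
      have : 0 ≤ ((h : ℝ) + 1) * (Ml - 1) := by
        have : (0 : ℝ) ≤ h := Nat.cast_nonneg _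
        have : (0 : ℝ) ≤ (Ml : ℝ) - 1 := by linarith
        positivity
      nlinarith
    have e3 : L + 1 ≤ 2 * L := by linarith
    calc (k0 : ℝ) * ((D + m : ℕ) : ℝ) * (((D : ℝ) + 2) * (((Ml : ℝ) + h + 1) * (L + 1))) ≤
        lam * (2 * L) * (lam * ((lam * Ml) * (2 * L))) := by
          refine mul_le_mul (mul_le_mul hk0 e1 (Nat.cast_nonneg _) hlam0.le) ?_ (by positivity)
            (by positivity)
          refine mul_le_mul hD2 ?_ (by positivity) hlam0.le
          exact mul_le_mul e2 e3 (by linarith) (by positivity)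
      _ = 4 * (lam * lam * lam) * (L * L) * Ml := by ring
      _ ≤ Real.exp lam * (Real.exp lam * Real.exp lam * Real.exp lam) *
          (Real.exp lam * Real.exp lam) * Ml := by
          rw [hexplam]
          refine mul_le_mul_of_nonneg_right ?_ (by positivity)
          refine mul_le_mul_of_nonneg_right ?_ (by positivity)
          refine mul_le_mul (by linarith) ?_ (by positivity) hLpos.le
          refine mul_le_mul (mul_le_mul hlamL' hlamL' hlam0.le hLpos.le) hlamL' hlam0.le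
            (by positivity)
      _ = Real.exp (6 * lam) * Ml := by
          rw [← Real.exp_add, ← Real.exp_add, ← Real.exp_add, ← Real.exp_add]
          congr 2
          ring
  refine hA.trans ?_
  have hM2 : (Ml : ℝ) = (2 : ℝ) ^ (g * m) * ((2 : ℝ) ^ (g * (r + 1)) * 2 ^ d') := by
    rw [hMl, ← pow_add, ← pow_add]
    push_cast
    congr 1
    ring
  have hP1 : (2 : ℝ) ^ (g * m) ≤ (N0 * L) ^ m := by
    rw [pow_mul]
    exact pow_le_pow_left₀ (by positivity) hg _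
  have hpow : ∀ s : ℕ, (2 : ℝ) ^ s = Real.exp (s * Real.log 2) := by
    intro s
    rw [Real.exp_nat_mul, Real.exp_log (by norm_num)]
  have hP2 : (2 : ℝ) ^ (g * (r + 1)) * 2 ^ d' * Real.exp (6 * lam) ≤ Real.exp (η * L) := by
    rw [hpow, hpow, ← Real.exp_add, ← Real.exp_add]
    apply Real.exp_le_exp.2
    have e1 : ((g * (r + 1) : ℕ) : ℝ) * Real.log 2 ≤ 1.1 * lam ^ 2 := by
      push_cast
      have : (g : ℝ) * ((r : ℝ) + 1) * Real.log 2 = (g * Real.log 2) * (r + 1) := by ring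
      rw [this]
      calc ((g : ℝ) * Real.log 2) * (r + 1) ≤ (1.1 * lam) * lam :=
            mul_le_mul hg2 hr (by positivity) (by positivity)
        _ = 1.1 * lam ^ 2 := by ring
    have hd0 : (0 : ℝ) ≤ d' := Nat.cast_nonneg _
    have e2 : (d' : ℝ) * Real.log 2 ≤ d' := mul_le_of_le_one_right hd0 (by linarith)
    have hη0 : 0 ≤ η := by
      by_contra hcon
      rw [not_le] at hcon
      have : (κ : ℝ) * η ≤ 0 := mul_nonpos_of_nonneg_of_nonpos (Nat.cast_nonneg _) hcon.le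
      linarith
    have e3 : 4 * ((B / κ : ℕ) : ℝ) ≤ 0.08 * (η * L) := by
      have h0 : (0 : ℝ) ≤ ((B / κ : ℕ) : ℝ) := Nat.cast_nonneg _
      have h1 : ((B / κ : ℕ) : ℝ) * 100 ≤ ((B / κ : ℕ) : ℝ) * (κ * η) :=
        mul_le_mul_of_nonneg_left hκη h0
      have h2 : ((B / κ : ℕ) : ℝ) * κ ≤ 2 * L := by
        have h3 : (B / κ) * κ ≤ B := Nat.div_mul_le_self B κ
        have h4 : ((B / κ : ℕ) : ℝ) * κ ≤ B := by exact_mod_cast h3
        exact h4.trans hBup
      have h3 : (((B / κ : ℕ) : ℝ) * κ) * η ≤ (2 * L) * η := mul_le_mul_of_nonneg_right h2 hη0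
      have h4 : ((B / κ : ℕ) : ℝ) * (κ * η) = (((B / κ : ℕ) : ℝ) * κ) * η := by ring
      linarith
    have e4 : 100 * (η1 * L) ≤ η * L := by
      have := mul_le_mul_of_nonneg_right hη1 hLpos.le
      linarith
    have e5 : 11 * lam ≤ 0.2 * lam ^ 2 := by nlinarith
    linarith
  calc Real.exp (6 * lam) * Ml =
      (2 : ℝ) ^ (g * m) * ((2 : ℝ) ^ (g * (r + 1)) * 2 ^ d' * Real.exp (6 * lam)) := by
        rw [hM2]; ring
    _ ≤ (N0 * L) ^ m * Real.exp (η * L) := by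
        have : 0 ≤ N0 * L := le_trans (by positivity) hg
        exact mul_le_mul hP1 hP2 (by positivity) (by positivity)

theorem pow_four_le {B : ℕ} (hB : 16 ≤ B) : B ^ 4 ≤ 2 ^ B := by
  induction B, hB using Nat.le_induction with
  | base => norm_num
  | succ B hB ih =>
    have h1 : (B + 1) ^ 4 ≤ 2 * B ^ 4 := by
      have e : (B + 1) ^ 4 = B ^ 4 + 4 * B ^ 3 + 6 * B ^ 2 + 4 * B + 1 := by ring
      have f1 : 16 * B ^ 3 ≤ B ^ 4 := by
        calc 16 * B ^ 3 ≤ B * B ^ 3 := Nat.mul_le_mul_right _ hB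
          _ = B ^ 4 := by ring
      have f2 : 16 * B ^ 2 ≤ B ^ 3 := by
        calc 16 * B ^ 2 ≤ B * B ^ 2 := Nat.mul_le_mul_right _ hB
          _ = B ^ 3 := by ring
      have f3 : 16 * B ≤ B ^ 2 := by
        calc 16 * B ≤ B * B := Nat.mul_le_mul_right _ hB
          _ = B ^ 2 := by ring
      omega
    rw [pow_succ 2 B]
    omega

variable {K : Type} [Field K] [NumberField K] {h r : ℕ} {Cc : ℝ} {ε : Fin r → 𝓞 K} {g : Pr K → 𝓞 K}

/-- a heavy place -/
theorem exists_heavy {k0 : ℕ} (hk0 : 1 ≤ k0) {S : Finset (Pr K)} {A B D : Fin 3} {x : K} {p : Pr K}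
    (hP : InP k0 S A B D x p) {Λ : ℝ}
    (hbig : (k0 : ℝ) * ((Module.finrank ℚ K + S.card : ℕ) : ℝ) * Λ < hgt x) (hΛ : 0 ≤ Λ) :
    ∃ v ∈ Spl S, Λ ≤ df v A x := by
  by_contra hcon
  push Not at hcon
  have hk : (0 : ℝ) < k0 := by exact_mod_cast hk0
  have h1 := hP.wt
  have h2 : aw A x + ∑ v ∈ S, df (Sum.inr v : Pl K) A x = ∑ v ∈ Spl S, df v A x := by
    rw [sum_Spl]
    rfl
  have h3 : ∑ v ∈ Spl S, df v A x ≤ (Spl S).card * Λ := by
    rw [← nsmul_eq_mul, ← Finset.sum_const]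
    exact Finset.sum_le_sum fun v hv => (hcon v hv).le
  have h4 : (Spl S).card ≤ Module.finrank ℚ K + S.card := by
    rw [card_Spl]
    have h5 : Fintype.card (InfinitePlace K) ≤ Module.finrank ℚ K := by
      have h6 := InfinitePlace.sum_mult_eq (K := K)
      rw [← h6, Fintype.card_eq_sum_ones]
      exact Finset.sum_le_sum fun w _ => InfinitePlace.mult_pos
    omega
  have h5 : ((Spl S).card : ℝ) * Λ ≤ ((Module.finrank ℚ K + S.card : ℕ) : ℝ) * Λ :=
    mul_le_mul_of_nonneg_right (by exact_mod_cast h4) hΛ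
  rw [div_le_iff₀ hk, h2] at h1
  have h6 := mul_le_mul_of_nonneg_right (h3.trans h5) hk.le
  linarith

end Pool.Agent.Y728
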