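import Pool.Agent.H59.L.S8.Y728.FewK

/-!
Given a set `S` of primes, only few primes occur in the points of large height of the class `InP`
(helper728, after helper867).
-/

set_option autoImplicit false

namespace Pool.Agent.Y728

open Finset NumberField IsDedekindDomain Pool.Agent.H691R3 Pool.Agent.TH876.Loc
open Pool.Agent.TH876.KR (InP aw log_Nv_pos' log_nn)

variable {K : Type} [Field K] [NumberField K] {h r : ℕ} {Cc : ℝ} {ε : Fin r → 𝓞 K} {g : Pr K → 𝓞 K}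

theorem ceilL {L : ℝ} (hL : 100 ≤ L) {B : ℕ} (hB : B = ⌈L / Real.log 2⌉₊) :
    L ≤ B * Real.log 2 ∧ (B : ℝ) ≤ 2 * L ∧ 1.44 * L ≤ B := by
  have hLpos : 0 < L := by linarith
  have g1 : (0.6931 : ℝ) < Real.log 2 := by linarith [Real.log_two_gt_d9]
  have g2 : Real.log 2 < 0.6932 := by linarith [Real.log_two_lt_d9]
  have hBlow : L ≤ B * Real.log 2 := by
    have h1 : L / Real.log 2 ≤ B := by rw [hB]; exact Nat.le_ceil _
    rwa [div_le_iff₀ (by linarith)] at h1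
  have hBup : (B : ℝ) ≤ 2 * L := by
    have h1 : (B : ℝ) < L / Real.log 2 + 1 := by
      rw [hB]
      exact Nat.ceil_lt_add_one (by positivity)
    have h2 : L / Real.log 2 ≤ 3 / 2 * L := by
      rw [div_le_iff₀ (by linarith)]
      have h3 : L * 0.6931 ≤ L * Real.log 2 := mul_le_mul_of_nonneg_left g1.le hLpos.le
      have h4 : 3 / 2 * L * Real.log 2 = 3 / 2 * (L * Real.log 2) := by ring
      rw [h4]
      linarith only [h3, hLpos]
    linarith
  refine ⟨hBlow, hBup, ?_⟩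
  by_contra hcon
  rw [not_le] at hcon
  have h1 : (B : ℝ) * Real.log 2 ≤ B * 0.6932 :=
    mul_le_mul_of_nonneg_left g2.le (Nat.cast_nonneg _)
  linarith only [h1, hcon, hBlow, hLpos]

/-- the exponents -/
theorem exp_E {B κh : ℕ} {L Cc H : ℝ} (hL : 100 ≤ L) (hB : L ≤ B * Real.log 2)
    (hC : Cc ≤ Real.log L) (hH0 : 0 ≤ H) (hH : H ≤ Real.exp (L ^ κh)) (hB1 : L ≤ B) :
    Cc * (2 * H + 1) ≤ 2 ^ (B ^ (κh + 1)) := by
  have hLpos : 0 < L := by linarith
  have hlog : Real.log L ≤ L := Real.log_le_self hLpos.le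
  have h1 : (1 : ℝ) ≤ L ^ κh := one_le_pow₀ (by linarith)
  have h2 : 1 ≤ Real.exp (L ^ κh) := Real.one_le_exp (by linarith)
  have h3 : Cc * (2 * H + 1) ≤ L * (3 * Real.exp (L ^ κh)) :=
    mul_le_mul (hC.trans hlog) (by linarith) (by linarith) hLpos.le
  have h4 : 3 * L ≤ Real.exp (L - 1) := by
    have e1 : Real.exp (L - 1) = Real.exp ((L - 1) / 2) * Real.exp ((L - 1) / 2) := by
      rw [← Real.exp_add]; congr 1; ring
    have e2 := Real.add_one_le_exp ((L - 1) / 2)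
    rw [e1]
    nlinarith
  have h5 : Real.exp (L - 1) * Real.exp (L ^ κh) ≤ 2 ^ (B ^ (κh + 1)) := by
    rw [← Real.exp_add]
    have e1 : (2 : ℝ) ^ (B ^ (κh + 1)) = Real.exp (((B ^ (κh + 1) : ℕ) : ℝ) * Real.log 2) := by
      rw [Real.exp_nat_mul, Real.exp_log (by norm_num)]
    rw [e1]
    apply Real.exp_le_exp.2
    have e2 : ((B ^ (κh + 1) : ℕ) : ℝ) * Real.log 2 = (B : ℝ) ^ κh * (B * Real.log 2) := by
      push_cast; ring
    rw [e2]
    have e3 : L ^ κh ≤ (B : ℝ) ^ κh := pow_le_pow_left₀ hLpos.le hB1 _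
    have e4 : L ^ κh * L ≤ (B : ℝ) ^ κh * (B * Real.log 2) :=
      mul_le_mul e3 hB hLpos.le (by positivity)
    nlinarith
  calc Cc * (2 * H + 1) ≤ L * (3 * Real.exp (L ^ κh)) := h3
    _ = (3 * L) * Real.exp (L ^ κh) := by ring
    _ ≤ Real.exp (L - 1) * Real.exp (L ^ κh) := mul_le_mul_of_nonneg_right h4 (Real.exp_pos _).le
    _ ≤ _ := h5

theorem few_primesK (G : GD K h r Cc ε g) {k0 : ℕ} (hk0 : 1 ≤ k0) {η : ℝ} (hη : 0 < η) (κh : ℕ) :
    ∃ C : ℝ, 1 ≤ C ∧ ∃ X0 : ℝ, 16 ≤ X0 ∧ ∀ X : ℝ, X0 ≤ X → ∀ S R : Finset (Pr K), nn S ≤ X →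
    (∀ p ∈ R, p ∉ S ∧ Nv p ≤ X) →
    (∀ p ∈ R, ∃ (A B D : Fin 3) (x : K), A ≠ B ∧ B ≠ D ∧ A ≠ D ∧ Pt x ∧ InP k0 S A B D x p ∧
      (C * Real.log X) ^ S.card * X ^ η < hgt x ∧ hgt x ≤ Real.exp (Real.log X ^ κh)) →
    (R.card : ℝ) ≤ X ^ η := by
  classical
  obtain ⟨c0, hfew⟩ := few_rel G
  obtain ⟨D, hD⟩ : ∃ D, D = Module.finrank ℚ K := ⟨_, rfl⟩
  have hD1 : 1 ≤ D := by rw [hD]; exact Module.finrank_pos
  obtain ⟨κ0, hκ0⟩ : ∃ κ0 : ℕ, 100 / η ≤ κ0 := exists_nat_ge _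
  obtain ⟨κ, hκ⟩ : ∃ κ, κ = κ0 + 10 := ⟨_, rfl⟩
  have hκ10 : 10 ≤ κ := by omega
  have hκη : 100 ≤ κ * η := by
    rw [div_le_iff₀ hη] at hκ0
    rw [hκ]
    push_cast
    nlinarith
  obtain ⟨w, hw⟩ : ∃ w, w = (4 * D + 20) * κ := ⟨_, rfl⟩
  have hw1 : 1 ≤ w := by rw [hw]; exact Nat.mul_pos (by omega) (by omega)
  obtain ⟨c, hc⟩ : ∃ c, c = Nat.clog 2 w := ⟨_, rfl⟩
  have hwc : w ≤ 2 ^ c := by rw [hc]; exact Nat.le_pow_clog (by norm_num) _
  obtain ⟨hc', hhc'⟩ : ∃ hc', hc' = h + 1 := ⟨_, rfl⟩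
  obtain ⟨N0, hN0⟩ : ∃ N0, N0 = 1024 * ((D + 2) * hc' * w * κ) + 1 := ⟨_, rfl⟩
  have hN01 : 1 ≤ N0 := by omega
  have hN0r : (1 : ℝ) ≤ N0 := by exact_mod_cast hN01
  obtain ⟨e0, he0⟩ : ∃ e0, e0 = κh + 2 := ⟨_, rfl⟩
  obtain ⟨d, hd⟩ : ∃ d, d = D + 2 := ⟨_, rfl⟩
  obtain ⟨Q, hQ⟩ : ∃ Q, Q = 100 * ((4 * D + 20) * κ * (c + 2)) + ⌈10 * Real.log (4 * N0)⌉₊ +
      (r + 1) + 10 * (e0 + 3) + (d + c0 + 20) + (7 + d + hc' + c) + k0 + (D + 4) + (h + 2) +
      ⌈Cc⌉₊ := ⟨_, rfl⟩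
  obtain ⟨η1, hη1⟩ : ∃ η1, η1 = min (η / 100) (1 / 10000) := ⟨_, rfl⟩
  have hη10 : 0 < η1 := by rw [hη1]; exact lt_min (by positivity) (by norm_num)
  have hη1a : 100 * η1 ≤ η := by
    have : η1 ≤ η / 100 := by rw [hη1]; exact min_le_left _ _
    linarith
  have hη1b : η1 ≤ 1 / 10000 := by rw [hη1]; exact min_le_right _ _
  obtain ⟨L0, hL0, hL0'⟩ := large_L hη10 Q
  obtain ⟨Xo, hXo16, hom⟩ := Pool.Agent.Y96.omegaK K
  refine ⟨4 * N0, by linarith, max Xo (Real.exp L0), hXo16.trans (le_max_left _ _),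
    fun X hX S R hS hR H => ?_⟩
  have hXo : Xo ≤ X := (le_max_left _ _).trans hX
  have hX0 : 0 < X := by linarith
  obtain ⟨L, hL⟩ : ∃ L, L = Real.log X := ⟨_, rfl⟩
  have hLL : L0 ≤ L := by
    rw [hL, Real.le_log_iff_exp_le hX0]
    exact (le_max_right _ _).trans hX
  obtain ⟨hA, hB3⟩ := hL0' L hLL
  obtain ⟨lam, hlam⟩ : ∃ lam, lam = Real.log L := ⟨_, rfl⟩
  rw [← hlam] at hA hB3
  have hL100 : 100 ≤ L := hL0.trans hLL
  have hLpos : 0 < L := by linarith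
  have hQlam : (Q : ℝ) ≤ lam := by linarith
  have hlam0 : 0 < lam := by
    have : (0 : ℝ) ≤ Q := Nat.cast_nonneg _
    linarith
  have hXexp : X = Real.exp L := by rw [hL, Real.exp_log hX0]
  have hXη : ∀ s : ℝ, X ^ s = Real.exp (s * L) := by
    intro s
    rw [Real.rpow_def_of_pos hX0, ← hL, mul_comm]
  have hlamL : 10000 * lam ^ 2 ≤ L := by
    have : η1 * L ≤ 1 / 10000 * L := mul_le_mul_of_nonneg_right hη1b hLpos.le
    linarith
  -- constants
  have hQc : 100 * ((4 * D + 20) * κ * (c + 2)) ≤ Q := by omega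
  have hQN : 10 * Real.log (4 * N0) ≤ Q := by
    have h1 : 10 * Real.log (4 * N0) ≤ ((⌈10 * Real.log (4 * N0)⌉₊ : ℕ) : ℝ) := Nat.le_ceil _
    have h2 : ⌈10 * Real.log (4 * N0)⌉₊ ≤ Q := by omega
    have h3 : ((⌈10 * Real.log (4 * N0)⌉₊ : ℕ) : ℝ) ≤ Q := by exact_mod_cast h2
    linarith
  have hQr : r + 1 ≤ Q := by omega
  have hQz : 10 * (e0 + 3) ≤ Q := by omega
  have hQd : d + c0 + 20 ≤ Q := by omega
  have hcast : ∀ s : ℕ, s ≤ Q → (s : ℝ) ≤ lam := by
    intro s hs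
    have : (s : ℝ) ≤ Q := by exact_mod_cast hs
    linarith
  have hCclam : Cc ≤ lam := (Nat.le_ceil Cc).trans (hcast _ (by omega))
  have hlam100 : 100 ≤ lam := by
    have h1 : 100 ≤ 100 * ((4 * D + 20) * κ * (c + 2)) := by
      have : 1 ≤ (4 * D + 20) * κ * (c + 2) :=
        Nat.mul_pos (Nat.mul_pos (by omega) (by omega)) (by omega)
      omega
    have := hcast 100 (by omega)
    exact_mod_cast this
  -- `S`
  have hScard : (S.card : ℝ) * lam ≤ 3 * L := by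
    have h1 := hom X hXo S hS
    rw [← hL, ← hlam, le_div_iff₀ hlam0] at h1
    exact h1
  -- parameters
  obtain ⟨B, hB⟩ : ∃ B, B = ⌈L / Real.log 2⌉₊ := ⟨_, rfl⟩
  obtain ⟨hBlow, hBup, hBlow'⟩ := ceilL hL100 hB
  have hLB : L ≤ B := by linarith
  have hB100 : 100 ≤ B := by
    have : (100 : ℝ) ≤ B := by linarith
    exact_mod_cast this
  have hB1 : 1 ≤ B := by omega
  obtain ⟨b, hb⟩ : ∃ b, b = Nat.clog 2 B := ⟨_, rfl⟩
  have hBb : B ≤ 2 ^ b := by rw [hb]; exact Nat.le_pow_clog (by norm_num) _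
  obtain ⟨g', hg'⟩ : ∃ g', g' = Nat.clog 2 (N0 * B) := ⟨_, rfl⟩
  obtain ⟨v, hv⟩ : ∃ v, v = B / κ + 1 := ⟨_, rfl⟩
  obtain ⟨a, ha⟩ : ∃ a, a = B / κ + 1 := ⟨_, rfl⟩
  obtain ⟨z, hz⟩ : ∃ z, z = a + (e0 + 3) * b + (d + c0 + 20) := ⟨_, rfl⟩
  obtain ⟨n, hn⟩ : ∃ n, n = S.card + r + 1 := ⟨_, rfl⟩
  obtain ⟨J, hJ⟩ : ∃ J, J = 1 + (2 * v + g' * n) := ⟨_, rfl⟩
  obtain ⟨tl, htl⟩ : ∃ tl, tl = 7 + d + hc' + b + c := ⟨_, rfl⟩
  obtain ⟨M, hM⟩ : ∃ M, M = 2 ^ (J + 2 * z + 2 * tl + 6) := ⟨_, rfl⟩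
  obtain ⟨E, hE⟩ : ∃ E, E = B ^ (κh + 1) := ⟨_, rfl⟩
  have hnl : (n : ℝ) * lam ≤ 3 * L + (r + 1) * lam := by
    rw [hn]
    push_cast
    linarith
  obtain ⟨q1, q2, q3, q4, q5, q6, q7, q8, q9⟩ := num_par hκ10 hw hN0 hB1 hlam hL100 hBlow' hBup
    hQlam hlamL hQc hQN hQr hb hg' hv ha hz hQz hQd hJ hnl
  have hpar : Par D hc' e0 c0 B b g' v a c w n J z d hc' tl M (E + B) (J + z + tl + 2)
      ((J + 1) * (128 * ((D + 2) * (hc' * B * w)))) (128 * ((D + 2) * (hc' * B * w))) := {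
    hB := hB1
    hb := hBb
    hg := q3
    hw1 := hw1
    hwB := q8
    hwc := hwc
    hca := q4
    hd := by rw [hd]; exact Nat.lt_two_pow_self.le
    hh' := Nat.lt_two_pow_self.le
    hhc := by omega
    hS' := by
      have h1 : 1 ≤ B ^ κh := Nat.one_le_pow _ _ (by omega)
      have h2 : B ^ (κh + 1) + B ≤ B ^ (κh + 2) := by
        have e1 : B ^ (κh + 1) = B ^ κh * B := pow_succ _ _
        have e2 : B ^ (κh + 2) = B ^ κh * B * B := by rw [pow_succ, pow_succ]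
        have e3 : B ≤ B ^ κh * B := Nat.le_mul_of_pos_left _ h1
        have e4 : B ^ κh * B * 2 ≤ B ^ κh * B * B := Nat.mul_le_mul_left _ (by omega)
        rw [e1, e2]
        omega
      rw [hE, he0, mul_comm, pow_mul]
      exact h2.trans (Nat.pow_le_pow_left hBb _)
    hJ := hJ
    hJB := q5
    hgv := q6
    hz := hz
    htl := htl
    haw := q7
    hM := hM
    hτ := rfl
    hT0 := rfl
    hG := rfl }
  have hX2B : X ≤ 2 ^ B := by
    rw [hXexp, ← Real.le_log_iff_exp_le (by positivity), Real.log_pow]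
    exact hBlow
  have hSX : ∀ p ∈ S, Nv p ≤ X := fun p hp => (Nv_le_nn hp).trans hS
  have hnB : n + 1 ≤ B := by
    have h1 : ((n + 1 : ℕ) : ℝ) ≤ B := by
      push_cast
      have h2 : (r : ℝ) + 1 ≤ lam := by
        have := hcast (r + 1) hQr
        push_cast at this
        exact this
      have h3 : (n : ℝ) ≤ L / 10 := by
        rw [hn]
        push_cast
        have h4 : (S.card : ℝ) * 100 ≤ S.card * lam :=
          mul_le_mul_of_nonneg_left hlam100 (Nat.cast_nonneg _)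
        have h5 : lam ≤ lam ^ 2 := by nlinarith
        linarith
      linarith
    exact_mod_cast h1
  have hs' : (D + 4) * (hc' * B) * (n + 1) ≤ 2 ^ B := by
    have hDB : D + 4 ≤ B := by
      have h1 := hcast (D + 4) (by omega)
      have h2 : ((D + 4 : ℕ) : ℝ) ≤ B := by
        have : lam ≤ L := by
          rw [hlam]
          exact Real.log_le_self hLpos.le
        linarith
      exact_mod_cast h2
    have hcB : hc' ≤ B := by
      have h1 := hcast hc' (by omega)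
      have h2 : ((hc' : ℕ) : ℝ) ≤ B := by
        have : lam ≤ L := by
          rw [hlam]
          exact Real.log_le_self hLpos.le
        linarith
      exact_mod_cast h2
    calc (D + 4) * (hc' * B) * (n + 1) ≤ B * (B * B) * B :=
          Nat.mul_le_mul (Nat.mul_le_mul hDB (Nat.mul_le_mul_right _ hcB)) hnB
      _ = B ^ 4 := by ring
      _ ≤ 2 ^ B := pow_four_le (by omega)
  have hCc2B : Cc ≤ 2 ^ B := by
    have h1 : lam ≤ L := by
      rw [hlam]
      exact Real.log_le_self hLpos.le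
    have h2 : (B : ℝ) ≤ 2 ^ B := by exact_mod_cast Nat.lt_two_pow_self.le
    linarith
  -- the threshold
  have hthr : (k0 : ℝ) * ((D + S.card : ℕ) : ℝ) * (((D : ℝ) + 2) * (((M : ℝ) + h + 1) * (L + 1))) ≤
      ((4 * N0 : ℝ) * L) ^ S.card * Real.exp (η * L) := by
    refine num_M (κ := κ) (B := B) (η1 := η1) (g := g')
      (d' := 7 + 2 * v + 2 * z + 2 * tl) (r := r) hlam hL100 hκη hBup hη1a hB3 hlam100
      (hcast _ (by omega)) ?_ ?_ ?_ hScard ?_ q2 q9 ?_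
    · have := hcast (D + 2) (by omega)
      push_cast at this
      exact this
    · have := hcast (h + 2) (by omega)
      push_cast at this
      exact this
    · have := hcast (r + 1) hQr
      push_cast at this
      exact this
    · rw [hM, hJ, hn]
      congr 1
      ring
    · rw [hv, hz, htl, ha]
      push_cast
      have f1 : ((e0 : ℝ) + 3) * b ≤ (lam / 10) * (3 * lam) := by
        have f2 := hcast (10 * (e0 + 3)) hQz
        push_cast at f2
        exact mul_le_mul (by linarith) q1 (Nat.cast_nonneg _) (by linarith)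
      have f3 := hcast (d + c0 + 20) hQd
      have f4 := hcast (7 + d + hc' + c) (by omega)
      push_cast at f3 f4
      nlinarith
  -- the relations
  have hrelR : ∀ p ∈ R, ∃ vp ∈ Spl S, RelAt ε g vp S E M p := by
    intro p hp
    obtain ⟨A, B', D', x, h1, h2, h3, hx, h4, h5, h6⟩ := H p hp
    have hℓ : 0 ≤ L := hLpos.le
    have hΛ0 : 0 ≤ ((D : ℝ) + 2) * (((M : ℝ) + h + 1) * (L + 1)) := by positivity
    obtain ⟨vp, hvp, hΛ⟩ := exists_heavy hk0 h4 (Λ := ((D : ℝ) + 2) * (((M : ℝ) + h + 1) * (L + 1)))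
      (by
        rw [← hD]
        refine lt_of_le_of_lt hthr ?_
        rw [← hXη, hL]
        exact h5) hΛ0
    refine ⟨vp, hvp, relAt_point G hx h1 h2 h3 h4 hℓ (fun w hw => ?_) hvp ?_ (by rw [← hD]; exact hΛ)⟩
    · rw [hL]
      exact Real.log_le_log (Nv_pos w) (hSX w hw)
    · rw [hE]
      exact exp_E hL100 hBlow (by rw [← hlam]; exact hCclam) (hgt_nonneg x)
        (by rw [hL]; exact h6) hLB
  -- the count
  have hcount : R.card ≤ (Spl S).card * 2 ^ a := by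
    have h1 : R ⊆ (Spl S).biUnion fun vp => R.filter fun p => RelAt ε g vp S E M p := by
      intro p hp
      obtain ⟨vp, hvp, hrel⟩ := hrelR p hp
      exact Finset.mem_biUnion.2 ⟨vp, hvp, Finset.mem_filter.2 ⟨hp, hrel⟩⟩
    refine (Finset.card_le_card h1).trans (Finset.card_biUnion_le_card_mul _ _ _ fun vp hvp => ?_)
    refine (hfew hpar le_rfl hD.ge (by omega) hCc2B E B rfl hs' S hn.symm
      (fun w hw => (hSX w hw).trans hX2B) vp hvp _ fun p hp => ?_).le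
    obtain ⟨hpR, hrel⟩ := Finset.mem_filter.1 hp
    exact ⟨(hR p hpR).1, (hR p hpR).2.trans hX2B, hrel⟩
  have hSpl : ((Spl S).card : ℝ) ≤ 2 * L := by
    have h4 : (Spl S).card ≤ D + S.card := by
      rw [card_Spl]
      have h5 : Fintype.card (InfinitePlace K) ≤ Module.finrank ℚ K := by
        have h6 := InfinitePlace.sum_mult_eq (K := K)
        rw [← h6, Fintype.card_eq_sum_ones]
        exact Finset.sum_le_sum fun w _ => InfinitePlace.mult_pos
      omega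
    have h5 : ((Spl S).card : ℝ) ≤ D + S.card := by exact_mod_cast h4
    have h6 := hcast D (by omega)
    have h7 : (S.card : ℝ) * 100 ≤ S.card * lam :=
      mul_le_mul_of_nonneg_left hlam100 (Nat.cast_nonneg _)
    have h8 : lam ≤ lam ^ 2 := by nlinarith
    linarith
  have hRc : (R.card : ℝ) ≤ 2 * L * 2 ^ a := by
    have h1 : (R.card : ℝ) ≤ (Spl S).card * 2 ^ a := by exact_mod_cast hcount
    exact h1.trans (mul_le_mul_of_nonneg_right hSpl (by positivity))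
  refine hRc.trans ?_
  rw [hXη]
  have g1 : (0.6931 : ℝ) < Real.log 2 := by linarith [Real.log_two_gt_d9]
  have g2 : Real.log 2 < 0.6932 := by linarith [Real.log_two_lt_d9]
  have e1 : 2 * L ≤ Real.exp (2 * lam) := by
    have h2 : Real.exp (2 * lam) = L * L := by
      rw [two_mul, Real.exp_add, hlam, Real.exp_log hLpos]
    rw [h2]
    nlinarith
  have e2 : (2 : ℝ) ^ a = Real.exp (a * Real.log 2) := by
    rw [Real.exp_nat_mul, Real.exp_log (by norm_num)]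
  rw [e2]
  calc 2 * L * Real.exp (a * Real.log 2) ≤ Real.exp (2 * lam) * Real.exp (a * Real.log 2) :=
        mul_le_mul_of_nonneg_right e1 (Real.exp_pos _).le
    _ = Real.exp (2 * lam + a * Real.log 2) := by rw [Real.exp_add]
    _ ≤ Real.exp (η * L) := by
        apply Real.exp_le_exp.2
        have h1 : ((B / κ : ℕ) : ℝ) * 100 ≤ ((B / κ : ℕ) : ℝ) * (κ * η) :=
          mul_le_mul_of_nonneg_left hκη (Nat.cast_nonneg _)
        have h2 : ((B / κ : ℕ) : ℝ) * κ ≤ 2 * L := by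
          have h3 : (B / κ) * κ ≤ B := Nat.div_mul_le_self B κ
          have h4 : ((B / κ : ℕ) : ℝ) * κ ≤ B := by exact_mod_cast h3
          exact h4.trans hBup
        have h3 : ((B / κ : ℕ) : ℝ) * (κ * η) = (((B / κ : ℕ) : ℝ) * κ) * η := by ring
        have h4 : (((B / κ : ℕ) : ℝ) * κ) * η ≤ (2 * L) * η :=
          mul_le_mul_of_nonneg_right h2 hη.le
        have h5 : (a : ℝ) = ((B / κ : ℕ) : ℝ) + 1 := by rw [ha]; push_cast; ring
        have h6 : (a : ℝ) * Real.log 2 ≤ (((B / κ : ℕ) : ℝ) + 1) * 1 := by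
          rw [h5]
          exact mul_le_mul_of_nonneg_left (by linarith) (by positivity)
        have h7 : 100 * (η1 * L) ≤ η * L := by
          have := mul_le_mul_of_nonneg_right hη1a hLpos.le
          linarith
        have h8 : 3 * lam ≤ lam ^ 2 := by nlinarith
        have h9 : 0 < η * L := by positivity
        linarith

end Pool.Agent.Y728
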