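import Pool.Agent.H59.L.S8.Y728.Res
import Pool.Agent.H59.L.S8.Y784.ExtraC

/-!
The gain at an infinite place (helper728; the extrapolation lemma is by helper784).
-/

set_option autoImplicit false

namespace Pool.Agent.Y728

open Finset NumberField IsDedekindDomain Pool.Agent.H691R3 Pool.Agent.TH876.Loc

variable {K : Type} [Field K] [NumberField K]

variable {ι : Type} [Fintype ι] {n : ℕ}

theorem inl_av (w : InfinitePlace K) (z : K) : av (Sum.inl w : Pl K) z = ‖w.embedding z‖ := by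
  have h1 : w z = ‖w.embedding z‖ := (InfinitePlace.norm_embedding_eq w z).symm
  have h2 : av (Sum.inl w : Pl K) z = w z := rfl
  rw [h2, h1]

theorem gainA (w : InfinitePlace K) {N Δ T0 τ W V : ℕ} {α ε : ℝ} (δ : ι → Fin n → ℤ)
    (x : ι → 𝓞 K) (A : ι → ℂ) (a : Fin n → ℂ) (hN : Fintype.card ι ≤ 2 ^ N)
    (hδ : ∀ l i, |δ l i| ≤ 2 ^ Δ) (hx : ∀ l, w.embedding (x l : K) = Complex.exp (A l))
    (hV : 1 ≤ V) (hα : 1 ≤ α) (hε : 0 ≤ ε) (hε1 : ε ≤ 1) (hA : ∀ l, ‖A l‖ ≤ α)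
    (hrel : ∀ l, ‖(V : ℂ) * A l - ∑ j, a j * (δ l j : ℂ)‖ ≤ ε) (hτ : 64 * α ≤ τ)
    (hsmall : ε * ((τ * W : ℕ) * ((τ + 1 : ℝ) * (2 * W : ℕ)) ^ (τ * W) * (V * α + 1) ^ τ *
      Real.exp (α * (2 * W : ℕ))) * 2 ^ (3 * (τ * W)) ≤ 1) :
    Gain (Sum.inl w : Pl K) δ x N Δ T0 τ W := by
  intro P π hP T Z hT hZ1 hZW H m hm z hz hne
  have hτ0 : (0 : ℝ) ≤ τ := Nat.cast_nonneg _
  obtain ⟨f, hf⟩ : ∃ f : 𝓞 K →+* ℂ, f = w.embedding.comp (algebraMap (𝓞 K) K) := ⟨_, rfl⟩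
  have hfx : ∀ y : 𝓞 K, f y = w.embedding (y : K) := by
    intro y
    rw [hf]
    rfl
  have hGG : ∀ (m' : Fin n → ℕ) (z' : ℕ), f (GG P δ x m' z') =
      ∑ l, f (P l) * (∏ j, (δ l j : ℂ) ^ m' j) * Complex.exp (A l) ^ z' := by
    intro m' z'
    rw [GG_map]
    unfold GG
    refine Finset.sum_congr rfl fun l _ => ?_
    show f (P l) * (∏ j, (δ l j : ℂ) ^ m' j) * f (x l) ^ z' = _
    rw [hfx (x l), hx l]
  have H' : ∀ m' : Fin n → ℕ, ∑ j, m' j < T + τ → ∀ z' : ℕ, z' < Z →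
      ∑ l, f (P l) * (∏ j, (δ l j : ℂ) ^ m' j) * Complex.exp (A l) ^ z' = 0 := by
    intro m' hm' z' hz'
    rw [← hGG, H m' hm' z' hz', map_zero]
  have h1 := Pool.Agent.Y784.extraC (fun l => f (P l)) δ A a hV hα hε hε1 hA hrel hτ hZ1
    (show Z ≤ 2 * Z by omega) le_rfl H' m hm z hz
  rw [← hGG, hfx] at h1
  -- the sum of the coefficients
  have h2 : ∑ l, ‖f (P l)‖ * ∏ j, |(δ l j : ℝ)| ^ m j ≤ 2 ^ (N + π + Δ * T0) := by
    have h3 : ∀ l ∈ (univ : Finset ι), ‖f (P l)‖ * ∏ j, |(δ l j : ℝ)| ^ m j ≤ 2 ^ (π + Δ * T0) := by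
      intro l _
      rw [pow_add]
      refine mul_le_mul ?_ ?_ (Finset.prod_nonneg fun j _ => by positivity) (by positivity)
      · rw [hfx]
        exact (norm_embedding_le_house _ _).trans (hP l)
      · calc ∏ j, |(δ l j : ℝ)| ^ m j ≤ ∏ j : Fin n, (2 : ℝ) ^ (Δ * m j) := by
              refine Finset.prod_le_prod (fun j _ => by positivity) fun j _ => ?_
              rw [pow_mul]
              refine pow_le_pow_left₀ (abs_nonneg _) ?_ _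
              exact_mod_cast hδ l j
          _ = 2 ^ (Δ * ∑ j, m j) := by rw [Finset.prod_pow_eq_pow_sum, Finset.mul_sum]
          _ ≤ 2 ^ (Δ * T0) := pow_le_pow_right₀ (by norm_num) (Nat.mul_le_mul_left _ (by omega))
    refine (Finset.sum_le_sum h3).trans ?_
    rw [Finset.sum_const, nsmul_eq_mul, Finset.card_univ, add_assoc, pow_add 2 N]
    refine mul_le_mul_of_nonneg_right ?_ (by positivity)
    exact_mod_cast hN
  -- the error term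
  have hVα : (1 : ℝ) ≤ V * α + 1 := by
    have : (0 : ℝ) ≤ V * α := by positivity
    linarith
  have h4 : ε * ((τ * Z : ℕ) * ((τ + 1 : ℝ) * (2 * Z : ℕ)) ^ (τ * Z) * (V * α + 1) ^ τ *
      Real.exp (α * (2 * Z : ℕ))) * 2 ^ (3 * (τ * Z)) ≤ 1 := by
    refine le_trans ?_ hsmall
    have g1 : τ * Z ≤ τ * W := Nat.mul_le_mul_left _ hZW
    have g2 : ((2 * Z : ℕ) : ℝ) ≤ ((2 * W : ℕ) : ℝ) := by exact_mod_cast Nat.mul_le_mul_left _ hZW
    have g3 : (1 : ℝ) ≤ ((2 * Z : ℕ) : ℝ) := by exact_mod_cast (show 1 ≤ 2 * Z by omega)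
    have g4 : (1 : ℝ) ≤ (τ + 1 : ℝ) * ((2 * W : ℕ) : ℝ) := by
      have : (1 : ℝ) ≤ τ + 1 := by linarith
      nlinarith
    have g5 : ((τ + 1 : ℝ) * ((2 * Z : ℕ) : ℝ)) ^ (τ * Z) ≤
        ((τ + 1 : ℝ) * ((2 * W : ℕ) : ℝ)) ^ (τ * W) := by
      refine (pow_le_pow_left₀ (by positivity) (mul_le_mul_of_nonneg_left g2 (by positivity)) _).trans ?_
      exact pow_le_pow_right₀ g4 g1
    have g6 : Real.exp (α * ((2 * Z : ℕ) : ℝ)) ≤ Real.exp (α * ((2 * W : ℕ) : ℝ)) :=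
      Real.exp_le_exp.2 (mul_le_mul_of_nonneg_left g2 (by linarith))
    have g7 : ((τ * Z : ℕ) : ℝ) ≤ ((τ * W : ℕ) : ℝ) := by exact_mod_cast g1
    have g8 : (2 : ℝ) ^ (3 * (τ * Z)) ≤ 2 ^ (3 * (τ * W)) :=
      pow_le_pow_right₀ (by norm_num) (Nat.mul_le_mul_left _ g1)
    refine mul_le_mul ?_ g8 (by positivity) (by positivity)
    refine mul_le_mul_of_nonneg_left ?_ hε
    refine mul_le_mul ?_ g6 (by positivity) (by positivity)
    refine mul_le_mul_of_nonneg_right ?_ (by positivity)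
    exact mul_le_mul g7 g5 (by positivity) (by positivity)
  have h5 : ε * ((τ * Z : ℕ) * ((τ + 1 : ℝ) * (2 * Z : ℕ)) ^ (τ * Z) * (V * α + 1) ^ τ *
      Real.exp (α * (2 * Z : ℕ))) ≤ (1 / 2 : ℝ) ^ (3 * (τ * Z)) := by
    rw [one_div, inv_pow, ← one_div, le_div_iff₀ (by positivity)]
    exact h4
  have h6 : ‖w.embedding ((GG P δ x m z : 𝓞 K) : K)‖ ≤
      2 ^ (N + π + Δ * T0 + 1) * (1 / 2 : ℝ) ^ (3 * (τ * Z)) := by
    refine h1.trans ?_
    calc (∑ l, ‖f (P l)‖ * ∏ j, |(δ l j : ℝ)| ^ m j) * ((1 / 2 : ℝ) ^ (3 * (τ * Z)) +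
          ε * ((τ * Z : ℕ) * ((τ + 1 : ℝ) * (2 * Z : ℕ)) ^ (τ * Z) * (V * α + 1) ^ τ *
            Real.exp (α * (2 * Z : ℕ)))) ≤
        2 ^ (N + π + Δ * T0) * ((1 / 2 : ℝ) ^ (3 * (τ * Z)) + (1 / 2 : ℝ) ^ (3 * (τ * Z))) :=
          mul_le_mul h2 (by linarith) (by positivity) (by positivity)
      _ = _ := by rw [pow_succ]; ring
  have hne' : ((GG P δ x m z : 𝓞 K) : K) ≠ 0 := fun h => hne (RingOfIntegers.coe_eq_zero_iff.1 h)
  have hpos : 0 < ‖w.embedding ((GG P δ x m z : 𝓞 K) : K)‖ := by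
    rw [norm_pos_iff]
    intro h
    exact hne' ((map_eq_zero w.embedding).1 h)
  have h7 := Real.log_le_log hpos h6
  have hlog2 : 0 < Real.log 2 := Real.log_pos (by norm_num)
  have h8 : Real.log (2 ^ (N + π + Δ * T0 + 1) * (1 / 2 : ℝ) ^ (3 * (τ * Z))) =
      (((N + π + Δ * T0 + 1 : ℕ) : ℝ) - 3 * ((τ * Z : ℕ) : ℝ)) * Real.log 2 := by
    rw [Real.log_mul (by positivity) (by positivity), Real.log_pow, Real.log_pow, one_div,
      Real.log_inv]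
    push_cast
    ring
  rw [h8] at h7
  unfold lg
  rw [inl_av]
  have hmt : mt (Sum.inl w : Pl K) = (w.mult : ℝ) := rfl
  rw [hmt]
  have ha0 : (0 : ℝ) ≤ ((N + π + Δ * T0 + 1 : ℕ) : ℝ) := Nat.cast_nonneg _
  have hb0 : (0 : ℝ) ≤ ((τ * Z : ℕ) : ℝ) := Nat.cast_nonneg _
  have hm1 : w.mult = 1 ∨ w.mult = 2 := by
    unfold InfinitePlace.mult
    split_ifs
    · exact Or.inl rfl
    · exact Or.inr rfl
  rcases hm1 with h9 | h9
  · rw [h9, Nat.cast_one, one_mul]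
    refine h7.trans ?_
    refine mul_le_mul_of_nonneg_right ?_ hlog2.le
    linarith
  · rw [h9]
    have h10 := mul_le_mul_of_nonneg_left h7 (show (0 : ℝ) ≤ ((2 : ℕ) : ℝ) by norm_num)
    refine h10.trans ?_
    rw [← mul_assoc]
    refine mul_le_mul_of_nonneg_right ?_ hlog2.le
    push_cast
    push_cast at ha0 hb0
    linarith

end Pool.Agent.Y728
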