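import Pool.Agent.H59.L.S8.Y728.LinRel

/-!
The gain at a prime from the relations (helper728).
-/

set_option autoImplicit false

namespace Pool.Agent.Y728

open Finset NumberField IsDedekindDomain Pool.Agent.H691R3 Pool.Agent.TH876.Loc
open Pool.Agent.TH876.KR (fv_pos fv_pv_lt_one fv_pv_pos fv_natCast_eq_one fv_natCast_ge)

variable {K : Type} [Field K] [NumberField K]

theorem Rv_zpow_coe (u : Pr K) (z : (Rv u)ˣ) (m : ℤ) :
    (((z ^ m : (Rv u)ˣ) : Rv u) : K) = ((z : Rv u) : K) ^ m := by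
  have := Units.val_zpow_eq_zpow_val (Units.map ((Rv u).subtype : Rv u →* K) z) m
  rw [← map_zpow] at this
  exact this

theorem pow_phi_dvd (u : Pr K) (z : (Rv u)ˣ) (a : 𝓞 K) (hz : (z : Rv u) = toR u a)
    (ha : fv u (a : K) = 1) : ((pv u : ℕ) : Rv u) ^ 2 ∣ ((z ^ phi u : (Rv u)ˣ) : Rv u) - 1 := by
  rw [Units.val_pow_eq_pow_val, hz, Rv_pdvd]
  have e : ((toR u a ^ phi u - 1 : Rv u) : K) = (a : K) ^ phi u - 1 := by
    push_cast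
    rfl
  rw [e]
  exact pow_phi u ha

theorem rel_dvd (u : Pr K) {n : ℕ} (q : Fin n → 𝓞 K) (r : 𝓞 K) (v : ℕ) (c : Fin n → ℤ)
    (uq : Fin n → (Rv u)ˣ) (ur : (Rv u)ˣ) (huq : ∀ j, (uq j : Rv u) = toR u (q j))
    (hur : (ur : Rv u) = toR u r) {M : ℕ}
    (hrel : fv u ((r : K) ^ v * ∏ j, (q j : K) ^ (c j) - 1) ≤ fv u ((pv u : ℕ) : K) ^ M) :
    ((pv u : ℕ) : Rv u) ^ M ∣ ((ur ^ v * ∏ j, uq j ^ c j : (Rv u)ˣ) : Rv u) - 1 := by
  rw [Rv_pdvd]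
  refine le_trans (le_of_eq ?_) hrel
  congr 1
  rw [Units.val_mul, Units.val_pow_eq_pow_val, Units.coe_prod, hur]
  push_cast
  congr 2
  refine Finset.prod_congr rfl fun j _ => ?_
  rw [Rv_zpow_coe, huq j]
  rfl

/-- the gain for the subset products of `r` -/
theorem gain_rel (u : Pr K) {k n E ν τ N Δ T0 W : ℕ} (q : Fin n → 𝓞 K) (r : Fin k → 𝓞 K)
    (v : Fin k → ℕ) (c : Fin k → Fin n → ℤ) (hq1 : ∀ j, fv u (q j : K) = 1)
    (hr1 : ∀ i, fv u (r i : K) = 1) (hv0 : ∀ i, 0 < v i)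
    (hrel : ∀ i, fv u ((r i : K) ^ (v i) * ∏ j, (q j : K) ^ (c i j) - 1) ≤
      fv u ((pv u : ℕ) : K) ^ (E + 2))
    (I' : Finset (Finset (Fin k))) (l0 : Finset (Fin k)) (hl0 : l0 ∈ I') (g : 𝓞 K ⧸ resI u)
    (hIg : ∀ l ∈ I', Ideal.Quotient.mk (resI u) (∏ i ∈ l, r i) = g)
    (hν : phi u * VV v ≤ 2 ^ ν) (hE : τ * W + τ ^ 2 * W + ν * τ ≤ E) :
    Gain (Sum.inr u : Pl K) (fun l : {l // l ∈ I'} => dd v c l.1)
      (fun l : {l // l ∈ I'} => ∏ i ∈ l.1, r i) N Δ T0 τ W := by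
  classical
  have hR := Rv_RP u
  choose ur hur using fun i => Rv_isUnit u (x := toR u (r i)) (hr1 i)
  choose uq huq using fun j => Rv_isUnit u (x := toR u (q j)) (hq1 j)
  have humc : ∀ l : Finset (Fin k), ((∏ i ∈ l, ur i : (Rv u)ˣ) : Rv u) = toR u (∏ i ∈ l, r i) := by
    intro l
    rw [map_prod, Units.coe_prod]
    exact Finset.prod_congr rfl fun i _ => hur i
  have hm0 : fv u ((∏ i ∈ l0, r i : 𝓞 K) : K) = 1 := by
    have h1 := fv_of_isUnit u (∏ i ∈ l0, ur i).isUnit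
    rw [humc] at h1
    exact h1
  have hy2 : ∀ l ∈ I', ((pv u : ℕ) : Rv u) ^ 2 ∣
      (((∏ i ∈ l, ur i) * (∏ i ∈ l0, ur i)⁻¹ : (Rv u)ˣ) : Rv u) - 1 := by
    intro l hl
    have h1 : Ideal.Quotient.mk (resI u) (∏ i ∈ l, r i - ∏ i ∈ l0, r i) = 0 := by
      rw [map_sub, hIg l hl, hIg l0 hl0, sub_self]
    rw [Ideal.Quotient.eq_zero_iff_mem, mem_resI] at h1
    have h2 : ((pv u : ℕ) : Rv u) ^ 2 ∣ toR u (∏ i ∈ l, r i - ∏ i ∈ l0, r i) := by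
      rw [Rv_pdvd]
      exact h1
    have e : (((∏ i ∈ l, ur i) * (∏ i ∈ l0, ur i)⁻¹ : (Rv u)ˣ) : Rv u) - 1 =
        toR u (∏ i ∈ l, r i - ∏ i ∈ l0, r i) * (((∏ i ∈ l0, ur i)⁻¹ : (Rv u)ˣ) : Rv u) := by
      rw [map_sub, ← humc, ← humc, sub_mul, Units.mul_inv, Units.val_mul]
    rw [e]
    exact Dvd.dvd.mul_right h2 _
  obtain ⟨K', hK'⟩ : ∃ K', K' = E + 2 := ⟨_, rfl⟩
  have hK2 : 2 ≤ K' := by omega
  have hK0 : 0 < K' := by omega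
  have hKE : E + 2 ≤ K' := by omega
  choose aq haq using fun j => Lg.exists hR hK2 (pow_phi_dvd u (uq j) (q j) (huq j) (hq1 j)) (E + 2)
  choose ar har using fun i => Lg.exists hR hK2 (pow_phi_dvd u (ur i) (r i) (hur i) (hr1 i)) (E + 2)
  have hAex : ∀ l : {l // l ∈ I'}, ∃ a : Rv u,
      Lg (pv u) K' (E + 2) ((∏ i ∈ l.1, ur i) * (∏ i ∈ l0, ur i)⁻¹) a :=
    fun l => Lg.exists hR hK2 (hy2 l.1 l.2) (E + 2)
  choose A hA using hAex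
  have hrellin : ∀ i, ((pv u : ℕ) : Rv u) ^ E ∣ (v i : Rv u) * ar i + ∑ j, (c i j : Rv u) * aq j :=
    fun i => lin_rel hR hK2 hKE (har i) haq (v i) (c i)
      (rel_dvd u q (r i) (v i) (c i) uq (ur i) huq (hur i) (hrel i))
  have hV0 := VV_pos hv0
  refine gainP u (E := E) (K' := K') (ν := ν) (fun l : {l // l ∈ I'} => dd v c l.1)
    (fun l : {l // l ∈ I'} => ∏ i ∈ l.1, r i) (∏ i ∈ l0, r i) hm0
    (fun l => (((∏ i ∈ l.1, ur i) * (∏ i ∈ l0, ur i)⁻¹ : (Rv u)ˣ) : Rv u)) ?_ A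
    (-((VV v : Rv u) * ∑ i ∈ l0, ar i)) aq (phi u * VV v)
    (Nat.mul_pos (phi_pos u) hV0).ne' (val_le_of_le (pv_prime u) (Nat.mul_pos (phi_pos u) hV0) hν)
    (by omega) hK0 ?_ ?_ hE
  · intro l
    rw [← humc, ← humc, Units.val_mul, mul_comm, mul_assoc, Units.inv_mul, mul_one]
  · intro l
    exact (pow_dvd_pow _ (by omega)).trans (hA l)
  · intro l
    exact lin_beta v c hrellin l.1 l0 (lin_A hR hK2 hKE har l.1 l0 (hA l))

end Pool.Agent.Y728
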