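import Pool.Agent.H59.L.S8.Y728.SimulP
import Pool.Agent.H59.L.S8.Y728.SimulA2

/-!
Counting monomials, and the choice of parameters (helper728, after helper867).
-/

set_option autoImplicit false

namespace Pool.Agent.Y728

open Finset NumberField IsDedekindDomain Pool.Agent.H691R3 Pool.Agent.TH876.Loc

/-- Rankin's bound of the number of monomials of total degree `< T` -/
theorem card_Mon_real (n T N : ℕ) (hN : 1 ≤ N) :
    (Fintype.card (Mon n T) : ℝ) ≤ Real.exp (T / N) * ((N : ℝ) + 1) ^ n := by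
  classical
  have hN0 : (0 : ℝ) < N := by exact_mod_cast hN
  obtain ⟨x, hx⟩ : ∃ x : ℝ, x = N / (N + 1) := ⟨_, rfl⟩
  have hx0 : 0 < x := by rw [hx]; positivity
  have hx1 : x < 1 := by rw [hx, div_lt_one (by positivity)]; linarith
  have h1x : 1 - x = 1 / (N + 1) := by rw [hx]; field_simp; ring
  have hgeo : ∑ j : Fin T, x ^ (j : ℕ) ≤ (N : ℝ) + 1 := by
    rw [Fin.sum_univ_eq_sum_range (fun j => x ^ j) T, geom_sum_eq hx1.ne]
    have e1 : (x ^ T - 1) / (x - 1) = (1 - x ^ T) / (1 - x) := by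
      rw [← neg_div_neg_eq]; ring
    rw [e1, h1x, div_div_eq_mul_div, div_one]
    have e2 : 0 ≤ x ^ T := by positivity
    nlinarith
  have hgeo0 : 0 ≤ ∑ j : Fin T, x ^ (j : ℕ) := Finset.sum_nonneg fun _ _ => by positivity
  have h1 : ((univ.filter fun m : Fin n → Fin T => ∑ i, (m i : ℕ) < T).card : ℝ) * x ^ T ≤
      ∑ m : Fin n → Fin T, ∏ i, x ^ (m i : ℕ) := by
    calc ((univ.filter fun m : Fin n → Fin T => ∑ i, (m i : ℕ) < T).card : ℝ) * x ^ T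
        = ∑ _m ∈ univ.filter fun m : Fin n → Fin T => ∑ i, (m i : ℕ) < T, x ^ T := by
          rw [Finset.sum_const, nsmul_eq_mul]
      _ ≤ ∑ m ∈ univ.filter fun m : Fin n → Fin T => ∑ i, (m i : ℕ) < T, ∏ i, x ^ (m i : ℕ) := by
          refine Finset.sum_le_sum fun m hm => ?_
          rw [Finset.prod_pow_eq_pow_sum]
          exact pow_le_pow_of_le_one hx0.le hx1.le (Finset.mem_filter.1 hm).2.le
      _ ≤ _ := Finset.sum_le_sum_of_subset_of_nonneg (Finset.filter_subset _ _)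
          fun m _ _ => Finset.prod_nonneg fun _ _ => by positivity
  have h2 : ∑ m : Fin n → Fin T, ∏ i, x ^ (m i : ℕ) = (∑ j : Fin T, x ^ (j : ℕ)) ^ n := by
    have := Finset.prod_univ_sum (fun _ : Fin n => (univ : Finset (Fin T)))
      (fun _ j => x ^ (j : ℕ))
    rw [Fintype.piFinset_univ] at this
    rw [← this, Finset.prod_const, Finset.card_univ, Fintype.card_fin]
  have h3 : (Fintype.card (Mon n T) : ℝ) * x ^ T ≤ ((N : ℝ) + 1) ^ n := by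
    rw [Fintype.card_subtype]
    refine h1.trans ?_
    rw [h2]
    exact pow_le_pow_left₀ hgeo0 hgeo n
  have h4 : 1 ≤ Real.exp (T / N) * x ^ T := by
    have e1 : 1 ≤ Real.exp (1 / N) * x := by
      have e2 := Real.add_one_le_exp (1 / (N : ℝ))
      have e3 : (1 / (N : ℝ) + 1) * x = 1 := by
        rw [hx]; field_simp; ring
      calc (1 : ℝ) = (1 / (N : ℝ) + 1) * x := e3.symm
        _ ≤ Real.exp (1 / N) * x := mul_le_mul_of_nonneg_right e2 hx0.le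
    have e4 : Real.exp (T / N) = Real.exp (1 / N) ^ T := by
      rw [← Real.exp_nat_mul]; congr 1; ring
    rw [e4, ← mul_pow]
    exact one_le_pow₀ e1
  calc (Fintype.card (Mon n T) : ℝ) = Fintype.card (Mon n T) * 1 := (mul_one _).symm
    _ ≤ Fintype.card (Mon n T) * (Real.exp (T / N) * x ^ T) :=
        mul_le_mul_of_nonneg_left h4 (Nat.cast_nonneg _)
    _ = Real.exp (T / N) * (Fintype.card (Mon n T) * x ^ T) := by ring
    _ ≤ _ := mul_le_mul_of_nonneg_left h3 (Real.exp_pos _).le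

theorem card_Mon_le {n T g v : ℕ} (hg : 1 ≤ g) (hT : T ≤ (2 ^ g - 1) * v) :
    Fintype.card (Mon n T) ≤ 2 ^ (2 * v + g * n) := by
  obtain ⟨N, hN⟩ : ∃ N, N = 2 ^ g - 1 := ⟨_, rfl⟩
  have h2g : 2 ≤ 2 ^ g := by
    calc 2 = 2 ^ 1 := by norm_num
      _ ≤ 2 ^ g := Nat.pow_le_pow_right (by norm_num) hg
  have hN1 : 1 ≤ N := by omega
  have hNg : N + 1 = 2 ^ g := by omega
  rw [← hN] at hT
  have hN0 : (0 : ℝ) < N := by exact_mod_cast hN1
  have h1 := card_Mon_real n T N hN1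
  have h2 : (T : ℝ) / N ≤ v := by
    rw [div_le_iff₀ hN0]
    have : (T : ℝ) ≤ N * v := by exact_mod_cast hT
    linarith
  have h3 : Real.exp (T / N) ≤ (4 : ℝ) ^ v := by
    refine (Real.exp_le_exp.2 h2).trans ?_
    have e1 : Real.exp (v : ℝ) = Real.exp 1 ^ v := by
      rw [← Real.exp_nat_mul]; simp
    rw [e1]
    refine pow_le_pow_left₀ (Real.exp_pos _).le ?_ v
    have := Real.exp_one_lt_d9
    linarith
  have h4 : ((N : ℝ) + 1) ^ n = (2 : ℝ) ^ (g * n) := by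
    have : (N : ℝ) + 1 = (2 : ℝ) ^ g := by exact_mod_cast hNg
    rw [this, ← pow_mul]
  have h5 : (Fintype.card (Mon n T) : ℝ) ≤ (2 : ℝ) ^ (2 * v + g * n) := by
    refine h1.trans ?_
    rw [h4, pow_add]
    have h6 : (2 : ℝ) ^ (2 * v) = 4 ^ v := by rw [pow_mul]; norm_num
    rw [h6]
    exact mul_le_mul_of_nonneg_right h3 (by positivity)
  exact_mod_cast h5

theorem choose_ge {a c w : ℕ} (hw : w ≤ 2 ^ c) (hca : c + 1 ≤ a) :
    2 ^ ((a - 1 - c) * w) ≤ (2 ^ a).choose w := by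
  have h1 : 2 ^ a = 2 * 2 ^ (a - 1) := by
    rw [← pow_succ']
    congr 1
    omega
  have h2 : 2 ^ c ≤ 2 ^ (a - 1) := Nat.pow_le_pow_right (by norm_num) (by omega)
  have h3 : (2 ^ (a - 1)) ^ w ≤ (2 ^ a + 1 - w) ^ w := Nat.pow_le_pow_left (by omega) _
  have h4 : (2 ^ a + 1 - w) ^ w ≤ w.factorial * (2 ^ a).choose w := by
    have := Nat.pow_sub_le_descFactorial (2 ^ a) w
    rw [Nat.descFactorial_eq_factorial_mul_choose] at this
    exact this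
  have h5 : w.factorial ≤ (2 ^ c) ^ w := (Nat.factorial_le_pow w).trans (Nat.pow_le_pow_left hw _)
  have h6 : 2 ^ ((a - 1 - c) * w) * (2 ^ c) ^ w = (2 ^ (a - 1)) ^ w := by
    rw [← pow_mul, ← pow_mul, ← pow_add, ← Nat.add_mul]
    congr 2
    omega
  have h7 : 2 ^ ((a - 1 - c) * w) * (2 ^ c) ^ w ≤ (2 ^ a).choose w * (2 ^ c) ^ w := by
    rw [h6]
    refine h3.trans (h4.trans ?_)
    rw [mul_comm]
    exact Nat.mul_le_mul_left _ h5
  exact Nat.le_of_mul_le_mul_right h7 (by positivity)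


theorem add_le_mul_nat {x y : ℕ} (hx : 2 ≤ x) (hy : 2 ≤ y) : x + y ≤ x * y := by
  obtain ⟨s, rfl⟩ : ∃ s, x = s + 2 := ⟨x - 2, by omega⟩
  obtain ⟨t, rfl⟩ : ∃ t, y = t + 2 := ⟨y - 2, by omega⟩
  have e : (s + 2) * (t + 2) = s * t + 2 * s + 2 * t + 4 := by ring
  rw [e]
  omega

/-- the natural number conditions of both simultaneous theorems -/
theorem par_nat {D hc e0 c0 B b g v a c w n J z d h' tl M S' G T0 τ : ℕ} (hB : 1 ≤ B)
    (hb : B ≤ 2 ^ b) (hg : 1 ≤ g) (hw1 : 1 ≤ w) (hwB : w ≤ B) (hwc : w ≤ 2 ^ c) (hca : c + 1 ≤ a)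
    (hd : D + 2 ≤ 2 ^ d) (hh' : hc ≤ 2 ^ h') (hhc : 1 ≤ hc) (hS' : S' ≤ 2 ^ (e0 * b))
    (hJ : J = 1 + (2 * v + g * n)) (hJB : J + 1 ≤ 8 * B)
    (hgv : 1024 * ((D + 2) * hc * w * B ^ 2) ≤ (2 ^ g - 1) * v)
    (hz : z = a + (e0 + 3) * b + (d + c0 + 20)) (htl : tl = 7 + d + h' + b + c)
    (haw : 2 * D * B + J + z ≤ (a - 1 - c) * w) (hM : M = 2 ^ (J + 2 * z + 2 * tl + 6))
    (hτ : τ = 128 * ((D + 2) * (hc * B * w))) (hT0 : T0 = (J + 1) * τ) (hG : G = J + z + tl + 2) :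
    2 ^ (2 * D * B) * (2 * (Fintype.card (Mon n T0) * 2 ^ z)) ≤ (2 ^ a).choose w ∧
    2 * Fintype.card (Mon n T0) ≤ 2 ^ J ∧
    64 * ((D + 2) * ((2 ^ a * S' + w) * (J + 1))) ≤ 2 ^ z ∧
    2 * (Fintype.card (Mon n T0) * 2 ^ z) ≤ 2 ^ (J + z) ∧
    2 * (J + z) + c0 + 1 ≤ 2 ^ z ∧
    2 + (2 * D * B + 2 ^ a * S') * τ + (τ + τ ^ 2) * (2 ^ J * 2 ^ z) ≤ M ∧
    (τ + 1) * (2 * (2 ^ J * 2 ^ z)) ≤ 2 ^ G ∧
    w + 2 ^ a * S' + 2 + G + τ * (2 ^ a * S' + G + 1) + (G + 4) * (τ * (2 ^ J * 2 ^ z)) ≤ M := by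
  have hDB : 1 ≤ (D + 2) * (hc * B * w) :=
    Nat.mul_pos (by omega) (Nat.mul_pos (Nat.mul_pos hhc hB) hw1)
  have hτ1 : 1 ≤ τ := by omega
  have hτle : τ ≤ 2 ^ tl := by
    rw [hτ, htl]
    calc 128 * ((D + 2) * (hc * B * w)) ≤ 2 ^ 7 * (2 ^ d * (2 ^ h' * 2 ^ b * 2 ^ c)) :=
          Nat.mul_le_mul (by norm_num) (Nat.mul_le_mul hd (Nat.mul_le_mul (Nat.mul_le_mul hh' hb) hwc))
      _ = 2 ^ (7 + d + h' + b + c) := by
          rw [← pow_add, ← pow_add, ← pow_add, ← pow_add]; congr 1; ring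
  have hT0le : T0 ≤ 1024 * ((D + 2) * hc * w * B ^ 2) := by
    calc T0 = (J + 1) * (128 * ((D + 2) * (hc * B * w))) := by rw [hT0, hτ]
      _ ≤ (8 * B) * (128 * ((D + 2) * (hc * B * w))) := Nat.mul_le_mul_right _ hJB
      _ = _ := by ring
  have hMon : Fintype.card (Mon n T0) ≤ 2 ^ (2 * v + g * n) := card_Mon_le hg (hT0le.trans hgv)
  have h2Mon : 2 * Fintype.card (Mon n T0) ≤ 2 ^ J := by
    calc 2 * Fintype.card (Mon n T0) ≤ 2 * 2 ^ (2 * v + g * n) := Nat.mul_le_mul_left _ hMon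
      _ = 2 ^ J := by rw [hJ, pow_add 2 1]; ring
  have h5 : 2 * (Fintype.card (Mon n T0) * 2 ^ z) ≤ 2 ^ (J + z) := by
    calc 2 * (Fintype.card (Mon n T0) * 2 ^ z) = (2 * Fintype.card (Mon n T0)) * 2 ^ z := by ring
      _ ≤ 2 ^ J * 2 ^ z := Nat.mul_le_mul_right _ h2Mon
      _ = 2 ^ (J + z) := by rw [pow_add]
  have hwS : w ≤ 2 ^ (a + (e0 * b) + b) := by
    refine hwB.trans (hb.trans (Nat.pow_le_pow_right (by norm_num) (by omega)))
  have haS : 2 ^ a * S' ≤ 2 ^ (a + e0 * b + b) := by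
    calc 2 ^ a * S' ≤ 2 ^ a * 2 ^ (e0 * b) := Nat.mul_le_mul_left _ hS'
      _ = 2 ^ (a + e0 * b) := by rw [pow_add]
      _ ≤ _ := Nat.pow_le_pow_right (by norm_num) (by omega)
  have hJb : J + 1 ≤ 2 ^ (b + 3) := by
    refine hJB.trans ?_
    rw [pow_add]
    calc 8 * B ≤ 8 * 2 ^ b := Nat.mul_le_mul_left _ hb
      _ = 2 ^ b * 2 ^ 3 := by ring
  have hzb : a + e0 * b + b + (b + 3) + (d + 16) ≤ z := by
    have : (e0 + 3) * b = e0 * b + 3 * b := by ring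
    omega
  have h4 : 64 * ((D + 2) * ((2 ^ a * S' + w) * (J + 1))) ≤ 2 ^ z := by
    calc 64 * ((D + 2) * ((2 ^ a * S' + w) * (J + 1))) ≤
        2 ^ 6 * (2 ^ d * ((2 ^ (a + e0 * b + b) + 2 ^ (a + e0 * b + b)) * 2 ^ (b + 3))) :=
          Nat.mul_le_mul (by norm_num) (Nat.mul_le_mul hd (Nat.mul_le_mul (Nat.add_le_add haS hwS) hJb))
      _ = 2 ^ (6 + d + (a + e0 * b + b + 1) + (b + 3)) := by
          rw [← two_mul, ← pow_succ', ← pow_add, ← pow_add, ← pow_add]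
          congr 1
          ring
      _ ≤ 2 ^ z := Nat.pow_le_pow_right (by norm_num) (by omega)
  have hz16 : b + 19 + c0 + d ≤ z := by
    have : (e0 + 3) * b = e0 * b + 3 * b := by ring
    omega
  have hzz : 8 * z ≤ 2 ^ (z - 3) * 2 ^ 3 := by
    have f1 : z - 3 < 2 ^ (z - 3) := Nat.lt_two_pow_self
    have : z ≤ 2 ^ (z - 3) := by
      have f4 : 2 * (z - 4) ≤ 2 ^ (z - 3) := by
        have g1 : z - 4 < 2 ^ (z - 4) := Nat.lt_two_pow_self
        have g2 : 2 ^ (z - 3) = 2 * 2 ^ (z - 4) := by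
          rw [← pow_succ']; congr 1; omega
        omega
      omega
    omega
  have hz8 : 8 * z ≤ 2 ^ z := by
    refine hzz.trans (le_of_eq ?_)
    rw [← pow_add]; congr 1; omega
  have hJz : 8 * (J + 1) ≤ 2 ^ z := by
    calc 8 * (J + 1) ≤ 8 * 2 ^ (b + 3) := Nat.mul_le_mul_left _ hJb
      _ = 2 ^ (b + 6) := by rw [show (8 : ℕ) = 2 ^ 3 by norm_num, ← pow_add]; congr 1; ring
      _ ≤ 2 ^ z := Nat.pow_le_pow_right (by norm_num) (by omega)
  have h6 : 2 * (J + z) + c0 + 1 ≤ 2 ^ z := by omega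
  obtain ⟨W, hW⟩ : ∃ W, W = 2 ^ J * 2 ^ z := ⟨_, rfl⟩
  have hZW : 2 ^ z ≤ W := by rw [hW]; exact Nat.le_mul_of_pos_left _ (by positivity)
  have hWe : W = 2 ^ (J + z) := by rw [hW, pow_add]
  have hτ2 : τ ≤ τ ^ 2 := Nat.le_self_pow (by norm_num) _
  have hDBz : 2 * D * B ≤ 2 ^ (d + b + 1) := by
    calc 2 * D * B ≤ 2 * 2 ^ d * 2 ^ b := Nat.mul_le_mul (Nat.mul_le_mul_left _ (by omega)) hb
      _ = 2 ^ (d + b + 1) := by rw [pow_add, pow_add]; ring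
  have hν2 : 2 * D * B + 2 ^ a * S' + 1 ≤ 2 ^ z := by
    have e1 : 2 ^ (d + b + 1) ≤ 2 ^ (z - 3) := Nat.pow_le_pow_right (by norm_num) (by omega)
    have e2 : 2 ^ (a + e0 * b + b) ≤ 2 ^ (z - 3) := Nat.pow_le_pow_right (by norm_num) (by omega)
    have e3 : 2 ^ z = 8 * 2 ^ (z - 3) := by
      rw [show (8 : ℕ) = 2 ^ 3 by norm_num, ← pow_add]; congr 1; omega
    have e4 : 1 ≤ 2 ^ (z - 3) := Nat.one_le_two_pow
    omega
  have hGz : G + 4 ≤ 2 ^ (z + tl) := by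
    have e1 : J + z + 6 ≤ 2 ^ z := by omega
    have e2 : tl < 2 ^ tl := Nat.lt_two_pow_self
    have e3 : 1 ≤ 2 ^ tl := Nat.one_le_two_pow
    have e4 : 1 ≤ 2 ^ z := Nat.one_le_two_pow
    have htl1 : 1 ≤ tl := by omega
    have e6 : 2 ≤ 2 ^ tl := by
      calc 2 = 2 ^ 1 := by norm_num
        _ ≤ 2 ^ tl := Nat.pow_le_pow_right (by norm_num) htl1
    have e7 : 2 ≤ 2 ^ z := by
      calc 2 = 2 ^ 1 := by norm_num
        _ ≤ 2 ^ z := Nat.pow_le_pow_right (by norm_num) (by omega)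
    have e8 : 2 ^ z + 2 ^ tl ≤ 2 ^ z * 2 ^ tl := add_le_mul_nat e7 e6
    rw [pow_add, hG]
    omega
  have hτW : τ * W ≤ 2 ^ (J + z + tl) := by
    rw [hWe, mul_comm, pow_add 2 (J + z) tl]
    exact Nat.mul_le_mul_left _ hτle
  have hbase : ∀ t, t ≤ J + 2 * z + 2 * tl + 3 → 2 ^ t * 8 ≤ M := by
    intro t ht
    rw [hM, show (8 : ℕ) = 2 ^ 3 by norm_num, ← pow_add]
    exact Nat.pow_le_pow_right (by norm_num) (by omega)
  refine ⟨?_, h2Mon, h4, h5, h6, ?_, ?_, ?_⟩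
  · refine le_trans ?_ (choose_ge (w := w) (c := c) (a := a) hwc hca)
    calc 2 ^ (2 * D * B) * (2 * (Fintype.card (Mon n T0) * 2 ^ z)) ≤
          2 ^ (2 * D * B) * 2 ^ (J + z) := Nat.mul_le_mul_left _ h5
      _ = 2 ^ (2 * D * B + J + z) := by rw [← pow_add]; congr 1; ring
      _ ≤ 2 ^ ((a - 1 - c) * w) := Nat.pow_le_pow_right (by norm_num) haw
  · rw [← hW]
    have e1 : (2 * D * B + 2 ^ a * S') * τ ≤ τ ^ 2 * W := by
      calc (2 * D * B + 2 ^ a * S') * τ ≤ W * τ ^ 2 := Nat.mul_le_mul (by omega) hτ2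
        _ = _ := by ring
    have e2 : (τ + τ ^ 2) * W ≤ 2 * (τ ^ 2 * W) := by
      calc (τ + τ ^ 2) * W ≤ (τ ^ 2 + τ ^ 2) * W := Nat.mul_le_mul_right _ (by omega)
        _ = _ := by ring
    have e3 : 1 ≤ τ ^ 2 * W := Nat.mul_pos (Nat.pow_pos hτ1) (by omega)
    have e4 : τ ^ 2 * W ≤ 2 ^ (J + z + 2 * tl) := by
      calc τ ^ 2 * W ≤ (2 ^ tl) ^ 2 * W := Nat.mul_le_mul_right _ (Nat.pow_le_pow_left hτle 2)
        _ = 2 ^ (J + z + 2 * tl) := by rw [hWe, ← pow_mul, ← pow_add]; congr 1; ring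
    have e5 := hbase (J + z + 2 * tl) (by omega)
    omega
  · rw [← hW, hG, hWe]
    have e1 : τ + 1 ≤ 2 ^ (tl + 1) := by
      rw [pow_succ]
      omega
    calc (τ + 1) * (2 * 2 ^ (J + z)) ≤ 2 ^ (tl + 1) * (2 * 2 ^ (J + z)) := Nat.mul_le_mul_right _ e1
      _ = 2 ^ (J + z + tl + 2) := by rw [← pow_succ', ← pow_add]; congr 1; ring
  · rw [← hW]
    have e0' : 2 ^ a * S' ≤ 2 ^ z := by omega
    have e1 : τ * (2 ^ a * S' + G + 1) ≤ 2 ^ (J + 2 * z + 2 * tl + 1) := by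
      have f1 : 2 ^ a * S' + G + 1 ≤ 2 ^ (z + tl + 1) := by
        have : 2 ^ z ≤ 2 ^ (z + tl) := Nat.pow_le_pow_right (by norm_num) (by omega)
        rw [pow_succ]
        omega
      calc τ * (2 ^ a * S' + G + 1) ≤ 2 ^ tl * 2 ^ (z + tl + 1) := Nat.mul_le_mul hτle f1
        _ = 2 ^ (z + 2 * tl + 1) := by rw [← pow_add]; congr 1; ring
        _ ≤ _ := Nat.pow_le_pow_right (by norm_num) (by omega)
    have e2 : (G + 4) * (τ * W) ≤ 2 ^ (J + 2 * z + 2 * tl + 1) := by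
      calc (G + 4) * (τ * W) ≤ 2 ^ (z + tl) * 2 ^ (J + z + tl) := Nat.mul_le_mul hGz hτW
        _ = 2 ^ (J + 2 * z + 2 * tl) := by rw [← pow_add]; congr 1; ring
        _ ≤ _ := Nat.pow_le_pow_right (by norm_num) (by omega)
    have e3 : w + 2 ^ a * S' + 2 + G ≤ 2 ^ (J + 2 * z + 2 * tl + 3) := by
      have f1 : w ≤ 2 ^ z := hwS.trans (Nat.pow_le_pow_right (by norm_num) (by omega))
      have f2 : 2 ^ z ≤ 2 ^ (z + tl) := Nat.pow_le_pow_right (by norm_num) (by omega)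
      have f3 : 2 ^ (z + tl) ≤ 2 ^ (J + 2 * z + 2 * tl) := Nat.pow_le_pow_right (by norm_num) (by omega)
      have f4 : 2 ^ (J + 2 * z + 2 * tl + 3) = 8 * 2 ^ (J + 2 * z + 2 * tl) := by
        rw [pow_add]; ring
      omega
    have e5 := hbase (J + 2 * z + 2 * tl + 1) (by omega)
    have e6 := hbase (J + 2 * z + 2 * tl + 3) (by omega)
    omega

end Pool.Agent.Y728
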