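import Pool.Agent.H59.L.S8.Y728.FewR2

/-!
The relation of a point (helper728).
-/

set_option autoImplicit false

namespace Pool.Agent.Y728

open Finset NumberField IsDedekindDomain Pool.Agent.H691R3 Pool.Agent.TH876.Loc
open Pool.Agent.TH876.KR (fv_pos fv_pv_lt_one fv_pv_pos side mem_side side_uniq df_eq_zero qt qt_ne
  lg_qt lg_qt_sub df_arch InP aw log_Nv_pos')

variable {K : Type} [Field K] [NumberField K]

theorem sum_df_le {x : K} (hx : Pt x) (T : Finset (Pr K)) (i : Fin 3) :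
    ∑ v ∈ T, df (Sum.inr v : Pl K) i x ≤ hgt x := by
  classical
  have h1 := sum_df hx (V := sp x ∪ T) Finset.subset_union_left i
  rw [sum_Spl] at h1
  have h2 : 0 ≤ ∑ w : InfinitePlace K, df (Sum.inl w : Pl K) i x :=
    Finset.sum_nonneg fun w _ => df_nonneg _ i hx
  have h3 : ∑ v ∈ T, df (Sum.inr v : Pl K) i x ≤ ∑ v ∈ sp x ∪ T, df (Sum.inr v : Pl K) i x :=
    Finset.sum_le_sum_of_subset_of_nonneg Finset.subset_union_right fun v _ _ => df_nonneg _ i hx
  linarith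

theorem df_le_hgt {x : K} (hx : Pt x) (v : Pl K) (i : Fin 3) : df v i x ≤ hgt x := by
  classical
  obtain ⟨V, hV, hvV⟩ : ∃ V : Finset (Pr K), sp x ⊆ V ∧ v ∈ Spl V := by
    rcases v with w | v
    · exact ⟨sp x, Finset.Subset.refl _, inl_mem_Spl _ _⟩
    · refine ⟨insert v (sp x), Finset.subset_insert _ _, ?_⟩
      rw [inr_mem_Spl]
      exact Finset.mem_insert_self _ _
  rw [← sum_df hx hV i]
  exact Finset.single_le_sum (f := fun v => df v i x) (fun v _ => df_nonneg v i hx) hvV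

/-- the exponents of the ratio -/
theorem qt_exp {x : K} (hx : Pt x) (B C : Fin 3) (v : Pr K) : ∃ a : ℤ,
    fv v (qt B C x) = (Nv v)⁻¹ ^ a ∧
    (a : ℝ) * Real.log (Nv v) = df (Sum.inr v : Pl K) B x - df (Sum.inr v : Pl K) C x := by
  obtain ⟨n, hn⟩ := fv_zpow v (qt_ne hx B C)
  refine ⟨-n, ?_, ?_⟩
  · rw [hn, inv_zpow, zpow_neg, inv_inv]
  · have h1 := lg_qt hx B C (Sum.inr v : Pl K)
    have h2 : lg (Sum.inr v : Pl K) (qt B C x) = n * Real.log (Nv v) := by
      show 1 * Real.log (fv v (qt B C x)) = _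
      rw [hn, Real.log_zpow, one_mul]
    rw [h2] at h1
    push_cast
    linarith

theorem log_two_le_Nv (v : Pr K) : Real.log 2 ≤ Real.log (Nv v) :=
  Real.log_le_log (by norm_num) (two_le_Nv v)

theorem exp_bound {x : K} (hx : Pt x) {B C : Fin 3} {v : Pr K} {a : ℤ}
    (ha : (a : ℝ) * Real.log (Nv v) = df (Sum.inr v : Pl K) B x - df (Sum.inr v : Pl K) C x) :
    |(a : ℝ)| ≤ 2 * hgt x := by
  have h1 := log_two_le_Nv v
  have h2 := Real.log_two_gt_d9
  have h3 : |(a : ℝ)| * Real.log (Nv v) ≤ hgt x := by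
    have h4 : 0 < Real.log (Nv v) := log_Nv_pos' v
    rw [← abs_of_pos h4, ← abs_mul, ha, abs_le]
    have b1 := df_nonneg (Sum.inr v : Pl K) B hx
    have b2 := df_nonneg (Sum.inr v : Pl K) C hx
    have b3 := df_le_hgt hx (Sum.inr v : Pl K) B
    have b4 := df_le_hgt hx (Sum.inr v : Pl K) C
    constructor <;> linarith
  have h4 := abs_nonneg (a : ℝ)
  nlinarith

theorem qt_arch {x : K} (hx : Pt x) (B C : Fin 3) (w : InfinitePlace K) :
    |Real.log (w (qt B C x))| ≤ 2 * hgt x := by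
  have h1 := lg_qt hx B C (Sum.inl w : Pl K)
  have h2 : lg (Sum.inl w : Pl K) (qt B C x) = w.mult * Real.log (w (qt B C x)) := rfl
  rw [h2] at h1
  have hm : (1 : ℝ) ≤ w.mult := by
    have : 0 < w.mult := InfinitePlace.mult_pos
    exact_mod_cast this
  have b1 := df_nonneg (Sum.inl w : Pl K) B hx
  have b2 := df_nonneg (Sum.inl w : Pl K) C hx
  have b3 := df_le_hgt hx (Sum.inl w : Pl K) B
  have b4 := df_le_hgt hx (Sum.inl w : Pl K) C
  have h3 : (w.mult : ℝ) * |Real.log (w (qt B C x))| ≤ hgt x := by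
    have h4 : (0 : ℝ) < w.mult := by linarith
    rw [← abs_of_pos h4, ← abs_mul, h1, abs_le]
    constructor <;> linarith
  have h4 := abs_nonneg (Real.log (w (qt B C x)))
  have h5 := hgt_nonneg x
  nlinarith

variable {h r : ℕ} {Cc : ℝ} {ε : Fin r → 𝓞 K} {g : Pr K → 𝓞 K}

/-- the multiplicative relation -/
theorem point_rel (G : GD K h r Cc ε g) {x : K} (hx : Pt x) {B C : Fin 3} {T : Finset (Pr K)}
    (hB : side B x ⊆ T) (hC : side C x ⊆ T) :
    ∃ (a : Pr K → ℤ) (b : Fin r → ℤ), (∀ v, (a v : ℝ) * Real.log (Nv v) =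
        df (Sum.inr v : Pl K) B x - df (Sum.inr v : Pl K) C x) ∧
      (∀ v, |(a v : ℝ)| ≤ 2 * hgt x) ∧ (∀ j, |(b j : ℝ)| ≤ Cc * (2 * hgt x + 1)) ∧
      (qt B C x) ^ h = (∏ j, (ε j : K) ^ (b j)) * ∏ v ∈ T, (g v : K) ^ (a v) := by
  choose a ha1 ha2 using fun v => qt_exp hx B C v
  obtain ⟨b, hb1, hb2⟩ := G.rel T a (qt B C x) (2 * hgt x) (qt_ne hx B C) (by
      intro v hv
      have h1 := ha2 v
      rw [df_eq_zero hx (fun h => hv (hB h)), df_eq_zero hx (fun h => hv (hC h)), sub_zero] at h1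
      have h2 : (a v : ℝ) = 0 := (mul_eq_zero.1 h1).resolve_right (log_Nv_pos' v).ne'
      have h3 : a v = 0 := by exact_mod_cast h2
      rw [ha1 v, h3, zpow_zero]) (fun v _ => ha1 v) (fun w => qt_arch hx B C w) (by
      have h1 := sum_df_le hx T B
      have h2 := sum_df_le hx T C
      have h3 : ∑ v ∈ T, |(a v : ℝ)| * Real.log (Nv v) ≤
          ∑ v ∈ T, (df (Sum.inr v : Pl K) B x + df (Sum.inr v : Pl K) C x) := by
        refine Finset.sum_le_sum fun v _ => ?_
        have h4 : 0 < Real.log (Nv v) := log_Nv_pos' v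
        rw [← abs_of_pos h4, ← abs_mul, ha2 v, abs_le]
        have b1 := df_nonneg (Sum.inr v : Pl K) B hx
        have b2 := df_nonneg (Sum.inr v : Pl K) C hx
        constructor <;> linarith
      rw [Finset.sum_add_distrib] at h3
      linarith)
  exact ⟨a, b, ha2, fun v => exp_bound hx (ha2 v), hb1, hb2⟩

theorem neg_log_pv (u : Pr K) :
    -Real.log (fv u ((pv u : ℕ) : K)) ≤ (Module.finrank ℚ K : ℝ) * Real.log (Nv u) := by
  have hp1 : (1 : ℝ) ≤ ((pv u : ℕ) : ℝ) := by exact_mod_cast (pv_prime u).one_lt.le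
  have hne : ((pv u : ℕ) : 𝓞 K) ≠ 0 := Nat.cast_ne_zero.2 (pv_prime u).ne_zero
  have h1 := liouville (Sum.inr u : Pl K) hne (B := ((pv u : ℕ) : ℝ)) hp1 (by
    have e : (((pv u : ℕ) : 𝓞 K) : K) = ((pv u : ℤ) : K) := by
      have : algebraMap (𝓞 K) K ((pv u : ℕ) : 𝓞 K) = ((pv u : ℕ) : K) := map_natCast _ _
      rw [Int.cast_natCast]
      exact this
    rw [e, house_intCast]
    simp)
  have h2 : lg (Sum.inr u : Pl K) (((pv u : ℕ) : 𝓞 K) : K) = Real.log (fv u ((pv u : ℕ) : K)) := by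
    show 1 * Real.log (fv u (((pv u : ℕ) : 𝓞 K) : K)) = _
    have e : (((pv u : ℕ) : 𝓞 K) : K) = ((pv u : ℕ) : K) := map_natCast (algebraMap (𝓞 K) K) _
    rw [one_mul, e]
  rw [h2] at h1
  have h3 : Real.log ((pv u : ℕ) : ℝ) ≤ Real.log (Nv u) :=
    Real.log_le_log (by linarith) (pv_le_Nv u)
  have h4 := mul_le_mul_of_nonneg_left h3 (Nat.cast_nonneg (α := ℝ) (Module.finrank ℚ K))
  linarith

/-- closeness of the power of the ratio, at a prime -/
theorem near_P {x : K} (hx : Pt x) {A B C : Fin 3} (hAB : A ≠ B) (hBC : B ≠ C) (hAC : A ≠ C)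
    {u : Pr K} {M h : ℕ} (hA : u ∈ side A x)
    (hΛ : M * ((Module.finrank ℚ K : ℝ) * Real.log (Nv u)) ≤ df (Sum.inr u : Pl K) A x) :
    fv u ((qt B C x) ^ h - 1) ≤ fv u ((pv u : ℕ) : K) ^ M := by
  have hC0 : df (Sum.inr u : Pl K) C x = 0 := df_eq_zero hx fun hc => hAC (side_uniq hA hc)
  have hB0 : df (Sum.inr u : Pl K) B x = 0 := df_eq_zero hx fun hc => hAB (side_uniq hA hc)
  have h1 := lg_qt_sub hx hAB hBC hAC (Sum.inr u : Pl K)
  have h2 := lg_qt hx B C (Sum.inr u : Pl K)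
  rw [hC0, zero_sub] at h1
  rw [hC0, hB0, sub_zero] at h2
  have e1 : lg (Sum.inr u : Pl K) (qt B C x - 1) = Real.log (fv u (qt B C x - 1)) := by
    show 1 * Real.log _ = _
    rw [one_mul]
    rfl
  have e2 : lg (Sum.inr u : Pl K) (qt B C x) = Real.log (fv u (qt B C x)) := by
    show 1 * Real.log _ = _
    rw [one_mul]
    rfl
  rw [e1] at h1
  rw [e2] at h2
  have hy1 : fv u (qt B C x) = 1 := by
    have h3 : 0 < fv u (qt B C x) := fv_pos u (qt_ne hx B C)
    have h4 := Real.exp_log h3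
    rw [h2, Real.exp_zero] at h4
    exact h4.symm
  have hne : qt B C x - 1 ≠ 0 := by
    rw [Pool.Agent.TH876.KR.qt_sub hx hAB hBC hAC]
    exact div_ne_zero (L_ne hx A) (L_ne hx C)
  have h3 : fv u (qt B C x - 1) ≤ fv u ((pv u : ℕ) : K) ^ M := by
    have p1 : 0 < fv u (qt B C x - 1) := fv_pos u hne
    have p2 : 0 < fv u ((pv u : ℕ) : K) := fv_pv_pos u
    rw [← Real.log_le_log_iff p1 (pow_pos p2 _), Real.log_pow, h1]
    have h5 := neg_log_pv u
    have h6 := mul_le_mul_of_nonneg_left h5 (Nat.cast_nonneg (α := ℝ) M)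
    linarith
  refine le_trans ?_ h3
  -- `y ^ h - 1 = (y - 1) * integral`
  rw [← mul_geom_sum, map_mul]
  have h7 : fv u (∑ i ∈ range h, qt B C x ^ i) ≤ 1 := by
    refine fv_sum_le u _ _ 1 zero_le_one fun i _ => ?_
    rw [map_pow, hy1, one_pow]
  exact mul_le_of_le_one_right ((fv u).nonneg _) h7

/-- closeness of the power of the ratio, at an infinite place -/
theorem near_A {x : K} (hx : Pt x) {A B C : Fin 3} (hAB : A ≠ B) (hBC : B ≠ C) (hAC : A ≠ C)
    {w : InfinitePlace K} {M h : ℕ}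
    (hΛ : 2 * ((M : ℝ) + h + 1) ≤ df (Sum.inl w : Pl K) A x) :
    w ((qt B C x) ^ h - 1) ≤ (1 / 2) ^ M := by
  have hm1 : (1 : ℝ) ≤ w.mult := by
    have : 0 < w.mult := InfinitePlace.mult_pos
    exact_mod_cast this
  have hm2 : (w.mult : ℝ) ≤ 2 := by
    have : w.mult = 1 ∨ w.mult = 2 := by
      unfold InfinitePlace.mult
      split_ifs
      · exact Or.inl rfl
      · exact Or.inr rfl
    rcases this with h | h <;> rw [h] <;> norm_num
  have l2a := Real.log_two_gt_d9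
  have l2b := Real.log_two_lt_d9
  have hM0 : (0 : ℝ) ≤ M := Nat.cast_nonneg _
  have hh0 : (0 : ℝ) ≤ h := Nat.cast_nonneg _
  have hC0 : df (Sum.inl w : Pl K) C x ≤ w.mult * Real.log 2 := by
    have h1 := df_arch hx hAC w
    rcases min_le_iff.1 h1 with h2 | h2
    · exfalso
      nlinarith
    · exact h2
  have h1 := lg_qt_sub hx hAB hBC hAC (Sum.inl w : Pl K)
  have e1 : lg (Sum.inl w : Pl K) (qt B C x - 1) = w.mult * Real.log (w (qt B C x - 1)) := rfl
  rw [e1] at h1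
  have hne : qt B C x - 1 ≠ 0 := by
    rw [Pool.Agent.TH876.KR.qt_sub hx hAB hBC hAC]
    exact div_ne_zero (L_ne hx A) (L_ne hx C)
  obtain ⟨t, ht⟩ : ∃ t : ℝ, t = w (qt B C x - 1) := ⟨_, rfl⟩
  have ht0 : 0 < t := by rw [ht]; exact InfinitePlace.pos_iff.2 hne
  rw [← ht] at h1
  have h2 : Real.log t ≤ -(((M : ℝ) + h) * Real.log 2) := by
    by_contra hcon
    rw [not_le] at hcon
    have h3 : -((w.mult : ℝ) * (((M : ℝ) + h) * Real.log 2)) < w.mult * Real.log t := by nlinarith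
    have h4 : (w.mult : ℝ) * (((M : ℝ) + h) * Real.log 2) ≤ 2 * (((M : ℝ) + h) * Real.log 2) :=
      mul_le_mul_of_nonneg_right hm2 (by positivity)
    have h5 : (w.mult : ℝ) * Real.log 2 ≤ 2 * Real.log 2 := mul_le_mul_of_nonneg_right hm2 (by linarith)
    have h6 : ((M : ℝ) + h) * Real.log 2 ≤ (M + h) * 1 :=
      mul_le_mul_of_nonneg_left (by linarith) (by positivity)
    linarith
  have h3 : t ≤ (1 / 2) ^ (M + h) := by
    rw [← Real.log_le_log_iff ht0 (by positivity), Real.log_pow, one_div, Real.log_inv]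
    push_cast
    linarith
  have ht1 : t ≤ 1 := h3.trans (pow_le_one₀ (by norm_num) (by norm_num))
  have hy2 : w (qt B C x) ≤ 2 := by
    have h4 : w (qt B C x) ≤ w (qt B C x - 1) + w 1 := by
      have := w.1.add_le (qt B C x - 1) 1
      rw [sub_add_cancel] at this
      exact this
    rw [map_one, ← ht] at h4
    linarith
  rw [← mul_geom_sum, map_mul, ← ht]
  have h7 : w (∑ i ∈ range h, qt B C x ^ i) ≤ 2 ^ h := by
    have h8 : w (∑ i ∈ range h, qt B C x ^ i) ≤ ∑ i ∈ range h, w (qt B C x ^ i) :=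
      w.1.sum_le _ _
    refine h8.trans ?_
    have h9 : ∀ i ∈ range h, w (qt B C x ^ i) ≤ (2 : ℝ) ^ i := by
      intro i _
      rw [map_pow]
      exact pow_le_pow_left₀ (apply_nonneg w _) hy2 _
    refine (Finset.sum_le_sum h9).trans ?_
    rw [geom_sum_eq (by norm_num)]
    norm_num
  calc t * w (∑ i ∈ range h, qt B C x ^ i) ≤ (1 / 2) ^ (M + h) * 2 ^ h :=
        mul_le_mul h3 h7 (apply_nonneg w _) (by positivity)
    _ = (1 / 2) ^ M := by
        rw [pow_add, mul_assoc, ← mul_pow]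
        norm_num

/-- a point of the class `InP` with a heavy place gives a relation -/
theorem relAt_point (G : GD K h r Cc ε g) {k : ℕ} {S : Finset (Pr K)} {A B C : Fin 3} {x : K}
    {p : Pr K} (hx : Pt x) (hAB : A ≠ B) (hBC : B ≠ C) (hAC : A ≠ C) (hP : InP k S A B C x p)
    {v : Pl K} {E M : ℕ} {ℓ : ℝ} (hℓ : 0 ≤ ℓ) (hS : ∀ w ∈ S, Real.log (Nv w) ≤ ℓ) (hv : v ∈ Spl S)
    (hE : Cc * (2 * hgt x + 1) ≤ 2 ^ E)
    (hΛ : ((Module.finrank ℚ K : ℝ) + 2) * (((M : ℝ) + h + 1) * (ℓ + 1)) ≤ df v A x) :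
    RelAt ε g v S E M p := by
  classical
  have hC1 := G.C1
  have hh0 := hgt_nonneg x
  have hf0 : (0 : ℝ) ≤ Module.finrank ℚ K := Nat.cast_nonneg _
  have hM0 : (0 : ℝ) ≤ M := Nat.cast_nonneg _
  have hhh0 : (0 : ℝ) ≤ h := Nat.cast_nonneg _
  obtain ⟨a, b, ha, haE, hbE, hrel⟩ := point_rel G hx (B := B) (C := C) (T := insert p S) hP.fB
    (hP.fC.trans (Finset.subset_insert _ _))
  rw [Finset.prod_insert hP.pS] at hrel
  -- the exponent of `p`
  have hpC : df (Sum.inr p : Pl K) C x = 0 := df_eq_zero hx fun hc => hBC (side_uniq hP.pB hc)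
  have hpB := (mem_side hx).1 hP.pB
  have hap : 0 < a p := by
    have h1 := ha p
    rw [hpC, sub_zero] at h1
    by_contra hcon
    rw [not_lt] at hcon
    have h2 : (a p : ℝ) ≤ 0 := by exact_mod_cast hcon
    have h3 := log_Nv_pos' p
    nlinarith
  obtain ⟨e, he⟩ : ∃ e : ℕ, (e : ℤ) = a p := ⟨(a p).toNat, Int.toNat_of_nonneg hap.le⟩
  have h2E : 2 * hgt x ≤ 2 ^ E := by nlinarith
  refine ⟨e, a, b, by omega, ?_, ?_, ?_, ?_, ?_⟩
  · have h1 := (haE p).trans h2E
    rw [← he] at h1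
    have h2 : |((e : ℤ) : ℝ)| = (e : ℝ) := by
      rw [Int.cast_natCast, abs_of_nonneg (Nat.cast_nonneg _)]
    rw [h2] at h1
    exact_mod_cast h1
  · intro w
    have h1 := (haE w).trans h2E
    exact_mod_cast h1
  · intro j
    have h1 := (hbE j).trans hE
    exact_mod_cast h1
  · intro u hu
    have hdpos : 0 < df (Sum.inr u : Pl K) A x := by
      rw [← hu]
      refine lt_of_lt_of_le ?_ hΛ
      positivity
    have huA : u ∈ side A x := (mem_side hx).2 hdpos
    have h1 := ha u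
    rw [df_eq_zero hx fun hc => hAB (side_uniq huA hc),
      df_eq_zero hx fun hc => hAC (side_uniq huA hc), sub_zero] at h1
    have h2 : (a u : ℝ) = 0 := (mul_eq_zero.1 h1).resolve_right (log_Nv_pos' u).ne'
    exact_mod_cast h2
  · have e1 : (g p : K) ^ e * ((∏ j, (ε j : K) ^ (b j)) * ∏ w ∈ S, (g w : K) ^ (a w)) =
        (qt B C x) ^ h := by
      rw [hrel, ← he, zpow_natCast]
      ring
    rw [e1]
    rcases v with w | u
    · show w ((qt B C x) ^ h - 1) ≤ (1 / 2) ^ M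
      refine near_A hx hAB hBC hAC ?_
      refine le_trans ?_ hΛ
      have h1 : (0 : ℝ) ≤ (M : ℝ) + h + 1 := by positivity
      have h2 : (M : ℝ) + h + 1 ≤ ((M : ℝ) + h + 1) * (ℓ + 1) := by nlinarith
      have h3 : 0 ≤ ((M : ℝ) + h + 1) * (ℓ + 1) := by positivity
      nlinarith
    · show fv u ((qt B C x) ^ h - 1) ≤ fv u ((pv u : ℕ) : K) ^ M
      have hdpos : 0 < df (Sum.inr u : Pl K) A x := by
        refine lt_of_lt_of_le ?_ hΛ
        positivity
      have huA : u ∈ side A x := (mem_side hx).2 hdpos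
      have huS : u ∈ S := (inr_mem_Spl S u).1 hv
      refine near_P hx hAB hBC hAC huA (le_trans ?_ hΛ)
      have h1 := hS u huS
      have h2 : (0 : ℝ) ≤ Real.log (Nv u) := (log_Nv_pos' u).le
      calc (M : ℝ) * ((Module.finrank ℚ K : ℝ) * Real.log (Nv u)) =
          (Module.finrank ℚ K : ℝ) * (M * Real.log (Nv u)) := by ring
        _ ≤ ((Module.finrank ℚ K : ℝ) + 2) * (((M : ℝ) + h + 1) * (ℓ + 1)) := by
          refine mul_le_mul (by linarith) ?_ (by positivity) (by positivity)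
          refine mul_le_mul (by linarith) (by linarith) h2 (by positivity)

end Pool.Agent.Y728
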