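import Pool.Agent.H59.L.S8.Y728.NonArch

/-!
Residues modulo `p ^ 2` at a prime; the combinatorial part of the simultaneous theorem (helper728).
-/

set_option autoImplicit false

namespace Pool.Agent.Y728

open Finset NumberField IsDedekindDomain Pool.Agent.H691R3 Pool.Agent.TH876.Loc
open Pool.Agent.TH876.KR (fv_pos fv_pv_lt_one fv_pv_pos fv_natCast_eq_one fv_natCast_ge)

variable {K : Type} [Field K] [NumberField K]

/-- the ideal of elements divisible by `p ^ 2` at `u` -/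
noncomputable def resI (u : Pr K) : Ideal (𝓞 K) where
  carrier := {a | fv u (a : K) ≤ fv u ((pv u : ℕ) : K) ^ 2}
  add_mem' := by
    intro a b ha hb
    rw [Set.mem_ofPred_eq] at *
    have e : ((a + b : 𝓞 K) : K) = (a : K) + (b : K) := rfl
    rw [e]
    exact (fv_na u _ _).trans (max_le ha hb)
  zero_mem' := by
    rw [Set.mem_ofPred_eq]
    have e : ((0 : 𝓞 K) : K) = 0 := rfl
    rw [e, map_zero]
    exact pow_nonneg ((fv u).nonneg _) _
  smul_mem' := by
    intro c x hx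
    rw [Set.mem_ofPred_eq] at *
    have e : ((c • x : 𝓞 K) : K) = (c : K) * (x : K) := rfl
    rw [e, map_mul]
    calc fv u (c : K) * fv u (x : K) ≤ 1 * fv u (x : K) :=
          mul_le_mul_of_nonneg_right (fv_int_le u c) ((fv u).nonneg _)
      _ ≤ _ := by rw [one_mul]; exact hx

theorem mem_resI (u : Pr K) (a : 𝓞 K) :
    a ∈ resI u ↔ fv u (a : K) ≤ fv u ((pv u : ℕ) : K) ^ 2 := Iff.rfl

theorem resI_norm (u : Pr K) :
    Ideal.absNorm (resI u) ∣ (pv u) ^ (2 * Module.finrank ℚ K) := by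
  have h1 : Ideal.span {(((pv u) ^ 2 : ℕ) : 𝓞 K)} ≤ resI u := by
    rw [Ideal.span_singleton_le_iff_mem, mem_resI]
    have e : ((((pv u) ^ 2 : ℕ) : 𝓞 K) : K) = ((pv u : ℕ) : K) ^ 2 := by
      have : algebraMap (𝓞 K) K (((pv u) ^ 2 : ℕ) : 𝓞 K) = ((pv u : ℕ) : K) ^ 2 := by
        rw [map_natCast]; push_cast; rfl
      exact this
    rw [e, map_pow]
  have h2 := Ideal.absNorm_dvd_absNorm_of_le h1
  rw [Ideal.absNorm_span_natCast, RingOfIntegers.rank, ← pow_mul] at h2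
  exact h2

theorem resI_finite (u : Pr K) : Finite (𝓞 K ⧸ resI u) := by
  rw [← Ideal.absNorm_ne_zero_iff]
  intro h
  have h1 := resI_norm u
  rw [h, zero_dvd_iff] at h1
  exact (pow_ne_zero _ (pv_prime u).ne_zero) h1

theorem resI_card (u : Pr K) {D h : ℕ} (hD : Module.finrank ℚ K ≤ D) (hph : pv u ≤ 2 ^ h) :
    Nat.card (𝓞 K ⧸ resI u) ≤ 2 ^ (2 * D * h) := by
  have h1 : Nat.card (𝓞 K ⧸ resI u) = Ideal.absNorm (resI u) := rfl
  rw [h1]
  refine (Nat.le_of_dvd (pow_pos (pv_prime u).pos _) (resI_norm u)).trans ?_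
  calc pv u ^ (2 * Module.finrank ℚ K) ≤ (2 ^ h) ^ (2 * Module.finrank ℚ K) :=
        Nat.pow_le_pow_left hph _
    _ = 2 ^ (h * (2 * Module.finrank ℚ K)) := by rw [← pow_mul]
    _ ≤ 2 ^ (2 * D * h) := by
        refine Nat.pow_le_pow_right (by norm_num) ?_
        calc h * (2 * Module.finrank ℚ K) ≤ h * (2 * D) :=
              Nat.mul_le_mul_left _ (Nat.mul_le_mul_left _ hD)
          _ = 2 * D * h := by ring

/-- the exponent of the residue group -/
noncomputable def phi (u : Pr K) : ℕ := Nat.card (𝓞 K ⧸ resI u)ˣ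

theorem phi_pos (u : Pr K) : 0 < phi u := by
  have := resI_finite u
  exact Nat.card_pos

theorem phi_le (u : Pr K) : phi u ≤ Nat.card (𝓞 K ⧸ resI u) := by
  have := resI_finite u
  exact Nat.card_le_card_of_injective (Units.val : (𝓞 K ⧸ resI u)ˣ → 𝓞 K ⧸ resI u)
    Units.val_injective

theorem pow_phi (u : Pr K) {r : 𝓞 K} (hr : fv u (r : K) = 1) :
    fv u ((r : K) ^ phi u - 1) ≤ fv u ((pv u : ℕ) : K) ^ 2 := by
  have hf := resI_finite u
  have hnz : (Ideal.Quotient.mk (resI u) r) ∈ nonZeroDivisors (𝓞 K ⧸ resI u) := by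
    rw [mem_nonZeroDivisors_iff_right]
    intro x hx
    obtain ⟨a, rfl⟩ := Ideal.Quotient.mk_surjective x
    rw [← map_mul, Ideal.Quotient.eq_zero_iff_mem, mem_resI] at hx
    rw [Ideal.Quotient.eq_zero_iff_mem, mem_resI]
    have e : ((a * r : 𝓞 K) : K) = (a : K) * (r : K) := rfl
    rw [e, map_mul, hr, mul_one] at hx
    exact hx
  have hu : IsUnit (Ideal.Quotient.mk (resI u) r) := by
    have : IsArtinianRing (𝓞 K ⧸ resI u) := inferInstance
    exact IsArtinianRing.isUnit_of_mem_nonZeroDivisors hnz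
  obtain ⟨w, hw⟩ := hu
  have h1 : w ^ phi u = 1 := by
    unfold phi
    exact pow_card_eq_one'
  have h2 : (Ideal.Quotient.mk (resI u) (r ^ phi u - 1)) = 0 := by
    rw [map_sub, map_pow, map_one, ← hw, ← Units.val_pow_eq_pow_val, h1, Units.val_one, sub_self]
  rw [Ideal.Quotient.eq_zero_iff_mem, mem_resI] at h2
  exact h2

section Comb

variable {k n : ℕ}

/-- the product of the exponents -/
def VV (v : Fin k → ℕ) : ℕ := ∏ i, v i

/-- the complementary products -/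
def WW (v : Fin k → ℕ) (i : Fin k) : ℕ := ∏ i' ∈ univ.erase i, v i'

/-- the exponents of the auxiliary function -/
def dd (v : Fin k → ℕ) (c : Fin k → Fin n → ℤ) (l : Finset (Fin k)) (j : Fin n) : ℤ :=
  - ∑ i ∈ l, (WW v i : ℤ) * c i j

theorem VV_eq (v : Fin k → ℕ) (i : Fin k) : VV v = v i * WW v i :=
  (Finset.mul_prod_erase univ v (mem_univ i)).symm

theorem VV_pos {v : Fin k → ℕ} (hv : ∀ i, 0 < v i) : 0 < VV v := Finset.prod_pos fun i _ => hv i

theorem VV_le {v : Fin k → ℕ} {S : ℕ} (hv : ∀ i, v i ≤ 2 ^ S) : VV v ≤ 2 ^ (k * S) := by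
  calc ∏ i, v i ≤ ∏ _i : Fin k, 2 ^ S := Finset.prod_le_prod' fun i _ => hv i
    _ = 2 ^ (k * S) := by rw [Finset.prod_const, Finset.card_univ, Fintype.card_fin, ← pow_mul,
        mul_comm]

theorem WW_le {v : Fin k → ℕ} {S : ℕ} (hv : ∀ i, v i ≤ 2 ^ S) (i : Fin k) :
    WW v i * 2 ^ S ≤ 2 ^ (k * S) := by
  have hk : 1 ≤ k := by
    have := i.2
    omega
  calc (∏ i' ∈ univ.erase i, v i') * 2 ^ S ≤ (∏ _i' ∈ univ.erase i, 2 ^ S) * 2 ^ S :=
        Nat.mul_le_mul_right _ (Finset.prod_le_prod' fun i _ => hv i)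
    _ = 2 ^ (k * S) := by
        rw [Finset.prod_const, Finset.card_erase_of_mem (mem_univ i), Finset.card_univ,
          Fintype.card_fin, ← pow_succ, ← pow_mul, mul_comm]
        congr 2
        omega

theorem dd_le {v : Fin k → ℕ} {c : Fin k → Fin n → ℤ} {S w : ℕ} (hv : ∀ i, v i ≤ 2 ^ S)
    (hc : ∀ i j, |c i j| ≤ 2 ^ S) {l : Finset (Fin k)} (hl : l.card = w) (j : Fin n) :
    |dd v c l j| ≤ 2 ^ (k * S + w) := by
  unfold dd
  calc |-∑ i ∈ l, (WW v i : ℤ) * c i j| = |∑ i ∈ l, (WW v i : ℤ) * c i j| := abs_neg _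
    _ ≤ ∑ _i ∈ l, (2 : ℤ) ^ (k * S) := by
        refine (Finset.abs_sum_le_sum_abs _ _).trans (Finset.sum_le_sum fun i _ => ?_)
        rw [abs_mul, Nat.abs_cast]
        have h1 : (WW v i : ℤ) * 2 ^ S ≤ 2 ^ (k * S) := by exact_mod_cast WW_le hv i
        refine le_trans ?_ h1
        exact mul_le_mul_of_nonneg_left (hc i j) (by positivity)
    _ = (w : ℤ) * 2 ^ (k * S) := by
        rw [Finset.sum_const, hl, nsmul_eq_mul]
    _ ≤ 2 ^ w * 2 ^ (k * S) := by
        apply mul_le_mul_of_nonneg_right _ (by positivity)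
        exact_mod_cast Nat.lt_two_pow_self.le
    _ = 2 ^ (k * S + w) := by rw [pow_add]; ring

theorem dd_rel {C : Type*} [CommRing C] (v : Fin k → ℕ) (c : Fin k → Fin n → ℤ)
    (l : Finset (Fin k)) (ar : Fin k → C) (aq : Fin n → C) :
    (VV v : C) * ∑ i ∈ l, ar i - ∑ j, aq j * (dd v c l j : C) =
      ∑ i ∈ l, (WW v i : C) * ((v i : C) * ar i + ∑ j, (c i j : C) * aq j) := by
  have e2 : ∑ i ∈ l, (WW v i : C) * ((v i : C) * ar i + ∑ j, (c i j : C) * aq j) =
      (VV v : C) * (∑ i ∈ l, ar i) + ∑ j, aq j * ∑ i ∈ l, (WW v i : C) * c i j := by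
    rw [Finset.mul_sum]
    simp_rw [Finset.mul_sum]
    rw [Finset.sum_comm (s := (univ : Finset (Fin n))), ← Finset.sum_add_distrib]
    apply Finset.sum_congr rfl
    intro i _
    rw [mul_add, Finset.mul_sum]
    congr 1
    · rw [VV_eq v i]
      push_cast
      ring
    · apply Finset.sum_congr rfl
      intro j _
      ring
  rw [e2, sub_eq_add_neg, ← Finset.sum_neg_distrib]
  congr 1
  apply Finset.sum_congr rfl
  intro j _
  unfold dd
  push_cast
  ring

/-- sizes of the products -/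
theorem house_mon_le (r : Fin k → 𝓞 K) {h w : ℕ} (hr : ∀ i, house (r i : K) ≤ 2 ^ h)
    {l : Finset (Fin k)} (hl : l.card = w) : house ((∏ i ∈ l, r i : 𝓞 K) : K) ≤ 2 ^ (h * w) := by
  show house (algebraMap (𝓞 K) K (∏ i ∈ l, r i)) ≤ _
  rw [map_prod]
  refine (house_prod_le' l _ (fun _ => (2 : ℝ) ^ h) fun i _ => hr i).trans (le_of_eq ?_)
  rw [Finset.prod_const, hl, ← pow_mul]

end Comb

end Pool.Agent.Y728
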