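import Pool.Agent.H59.L.S8.Y728.Exp
import Pool.Agent.H59.L.S8.TH867.SB.Schwarz

/-!
Hermite interpolation with denominators and the polynomial Schwarz lemma in a local domain
(helper728, after helper867).
-/

set_option autoImplicit false
set_option linter.unusedSectionVars false

namespace Pool.Agent.Y728

open Finset Polynomial
open Pool.Agent.TH867.SB (WW WO WW_monic WW_natDegree WW_map WW_eq WO_eval WO_eval_ne WO_degree
  node_dvd)

variable {R : Type*} [CommRing R] [IsDomain R] [CharZero R] {p : ℕ}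

theorem RP.not_dvd_one (hR : RP R p) : ¬ IsUnit (p : R) := by
  rintro ⟨u, hu⟩
  have h := hR.one (-(↑(u⁻¹) : R))
  rw [← hu, mul_neg, Units.mul_inv, add_neg_cancel] at h
  exact not_isUnit_zero h

/-- reduction modulo `p ^ E` -/
noncomputable def qm (R : Type*) [CommRing R] (p E : ℕ) :
    R →+* R ⧸ Ideal.span {(p : R) ^ E} := Ideal.Quotient.mk _

theorem qm_eq_zero {E : ℕ} {x : R} : qm R p E x = 0 ↔ (p : R) ^ E ∣ x := by
  unfold qm
  rw [Ideal.Quotient.eq_zero_iff_mem, Ideal.mem_span_singleton]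

theorem RP.nontriv (hR : RP R p) {E : ℕ} (hE : 0 < E) :
    Nontrivial (R ⧸ Ideal.span {(p : R) ^ E}) := by
  refine Ideal.Quotient.nontrivial_iff.2 ?_
  intro h
  rw [Ideal.span_singleton_eq_top] at h
  exact hR.not_dvd_one (isUnit_pow_iff hE.ne' |>.1 h)

/-- Lagrange interpolation with denominators. -/
theorem lagr (hR : RP R p) {g : R[X]} {Z E : ℕ} (hg : g.degree < Z)
    (hz : ∀ z < Z, (p : R) ^ E ∣ g.eval (z : R)) :
    ∀ k, (p : R) ^ (E - Z) ∣ g.coeff k := by
  classical
  choose! u hu using fun z (hz : z < Z) => node_dvd hz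
  have h1 : C (((Z - 1).factorial : ℕ) : R) * g =
      ∑ z ∈ range Z, C ((u z : R) * g.eval (z : R)) * WO R Z z := by
    apply Polynomial.eq_of_degrees_lt_of_eval_index_eq (s := range Z)
      (v := fun z : ℕ => (z : R))
    · intro a _ b _ hab
      exact Nat.cast_injective hab
    · rw [card_range]
      refine lt_of_le_of_lt (degree_mul_le _ _) ?_
      refine lt_of_le_of_lt (add_le_add degree_C_le le_rfl) ?_
      rw [zero_add]
      exact hg
    · rw [card_range]
      rw [← Polynomial.mem_degreeLT]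
      refine Submodule.sum_mem _ fun z hz' => ?_
      rw [Polynomial.mem_degreeLT]
      refine lt_of_le_of_lt (degree_mul_le _ _) ?_
      refine lt_of_le_of_lt (add_le_add degree_C_le le_rfl) ?_
      rw [zero_add]
      exact WO_degree _ (mem_range.1 hz')
    · intro w hw
      have hw' := mem_range.1 hw
      rw [Polynomial.eval_mul, Polynomial.eval_C, Polynomial.eval_finsetSum,
        Finset.sum_eq_single w]
      · rw [Polynomial.eval_mul, Polynomial.eval_C, WO_eval]
        have h2 := congrArg (fun t : ℤ => (t : R)) (hu w hw')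
        simp only [Int.cast_mul] at h2
        rw [Int.cast_natCast] at h2
        rw [← h2]
        ring
      · intro z _ hzw
        rw [Polynomial.eval_mul, WO_eval_ne _ hw' (Ne.symm hzw), mul_zero]
      · intro h
        exact absurd hw h
  intro k
  have h2 : (p : R) ^ E ∣ (((Z - 1).factorial : ℕ) : R) * g.coeff k := by
    rw [← Polynomial.coeff_C_mul, h1, Polynomial.finsetSum_coeff]
    apply Finset.dvd_sum
    intro z hz'
    rw [Polynomial.coeff_C_mul]
    exact Dvd.dvd.mul_right (Dvd.dvd.mul_left (hz z (mem_range.1 hz')) _) _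
  refine hR.dvd_of_natCast_mul (Nat.factorial_ne_zero _) ?_ h2
  refine (val_factorial_le hR.pp _).trans (by omega)

theorem qm_comp (F : R[X]) (E : ℕ) (z : ℕ) :
    (F.map (qm R p E)).comp (X + C (z : R ⧸ Ideal.span {(p : R) ^ E})) =
      (F.comp (X + C (z : R))).map (qm R p E) := by
  rw [Polynomial.map_comp]
  simp

/-- Hermite interpolation with denominators. -/
theorem herm (hR : RP R p) (F : R[X]) (Z E : ℕ) : ∀ T : ℕ,
    (∀ z < Z, ∀ i < T, (p : R) ^ E ∣ (F.comp (X + C (z : R))).coeff i) →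
    ∃ G S : R[X], F = WW R Z ^ T * G + S ∧
      C ((p : R) ^ (E - T ^ 2 * Z)) ∣ S := by
  intro T
  induction T with
  | zero => intro _; exact ⟨F, 0, by simp, by simp⟩
  | succ T ih =>
    intro h
    obtain ⟨G, S, hF, hS⟩ := ih fun z hz i hi => h z hz i (by omega)
    obtain ⟨E1, hE1⟩ : ∃ E1, E1 = E - T ^ 2 * Z := ⟨_, rfl⟩
    rw [← hE1] at hS
    have hE1E : E1 ≤ E := by omega
    have hSmap : S.map (qm R p E1) = 0 := by
      rw [Polynomial.C_dvd_iff_dvd_coeff] at hS
      ext k
      rw [Polynomial.coeff_map, Polynomial.coeff_zero, qm_eq_zero]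
      exact hS k
    have hGz : ∀ z < Z, (p : R) ^ (E1 - T * Z) ∣ G.eval (z : R) := by
      intro z hz
      have h1 : (X - C (z : R ⧸ Ideal.span {(p : R) ^ E1})) ^ (T + 1) ∣ F.map (qm R p E1) := by
        rw [X_sub_C_pow_dvd_iff, X_pow_dvd_iff]
        intro i hi
        rw [qm_comp, Polynomial.coeff_map, qm_eq_zero]
        exact (pow_dvd_pow _ hE1E).trans (h z hz i hi)
      rw [hF, Polynomial.map_add, hSmap, add_zero, Polynomial.map_mul, Polynomial.map_pow, WW_map,
        WW_eq _ hz, mul_pow, pow_succ, mul_assoc] at h1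
      have h3 : (X - C (z : R ⧸ Ideal.span {(p : R) ^ E1})) ∣
          WO (R ⧸ Ideal.span {(p : R) ^ E1}) Z z ^ T * G.map (qm R p E1) := by
        obtain ⟨c, hc⟩ := h1
        refine ⟨c, ?_⟩
        rw [mul_assoc] at hc
        exact (((monic_X_sub_C _).pow T).isRegular).left hc
      rw [Polynomial.dvd_iff_isRoot, Polynomial.IsRoot.def, Polynomial.eval_mul,
        Polynomial.eval_pow, WO_eval] at h3
      obtain ⟨u, hu⟩ := node_dvd hz
      have h4 : qm R p E1
          (((((Z - 1).factorial) ^ T : ℕ) : R) * G.eval (z : R)) = 0 := by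
        have h5 : (G.map (qm R p E1)).eval (z : R ⧸ Ideal.span {(p : R) ^ E1}) =
            qm R p E1 (G.eval (z : R)) := by
          rw [Polynomial.eval_map, ← Polynomial.eval₂_at_apply]
          simp
        have h6 := congrArg (fun t : ℤ => (t : R ⧸ Ideal.span {(p : R) ^ E1})) hu
        simp only [Int.cast_mul] at h6
        rw [Int.cast_natCast] at h6
        rw [h5] at h3
        rw [map_mul, map_natCast]
        push_cast
        rw [← h6, mul_pow, mul_assoc, h3, mul_zero]
      rw [qm_eq_zero] at h4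
      refine hR.dvd_of_natCast_mul (pow_ne_zero _ (Nat.factorial_ne_zero _)) ?_ h4
      have : Fact p.Prime := ⟨hR.pp⟩
      rw [padicValNat.pow]
      exact Nat.mul_le_mul_left _ ((val_factorial_le hR.pp _).trans (by omega))
    have hmon := WW_monic R Z
    have hdiv := Polynomial.modByMonic_add_div G (WW R Z)
    obtain ⟨g, hg⟩ : ∃ g, g = G %ₘ WW R Z := ⟨_, rfl⟩
    obtain ⟨G', hG'⟩ : ∃ G', G' = G /ₘ WW R Z := ⟨_, rfl⟩
    rw [← hg, ← hG'] at hdiv
    have hgdeg : g.degree < Z := by
      rw [hg]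
      refine lt_of_lt_of_le (Polynomial.degree_modByMonic_lt _ hmon) ?_
      rw [degree_eq_natDegree hmon.ne_zero, WW_natDegree]
    have hgz : ∀ z < Z, (p : R) ^ (E1 - T * Z) ∣ g.eval (z : R) := by
      intro z hz
      have h1 := hGz z hz
      rw [← hdiv, Polynomial.eval_add, Polynomial.eval_mul, WW_eq _ hz, Polynomial.eval_mul] at h1
      simpa using h1
    have hgc := lagr hR hgdeg hgz
    refine ⟨G', WW R Z ^ T * g + S, ?_, ?_⟩
    · rw [hF, ← hdiv]
      ring
    · have e1 : (T + 1) ^ 2 * Z = T ^ 2 * Z + T * Z + T * Z + Z := by ring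
      apply dvd_add
      · apply Dvd.dvd.mul_left
        rw [Polynomial.C_dvd_iff_dvd_coeff]
        intro k
        exact (pow_dvd_pow _ (by omega)).trans (hgc k)
      · refine dvd_trans ?_ hS
        rw [C_dvd_iff_dvd_coeff]
        intro k
        rw [Polynomial.coeff_C]
        split_ifs
        · exact pow_dvd_pow _ (by omega)
        · exact dvd_zero _

/-- Polynomial Schwarz lemma. -/
theorem schwarz (hR : RP R p) {F : R[X]} {T Z E d : ℕ}
    (hF : ∀ k, (p : R) ^ k ∣ F.coeff k)
    (hZ : ∀ z < Z, ∀ i < T, (p : R) ^ E ∣ (F.comp (X + C (z : R))).coeff i)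
    (hd : d ≤ T * Z) (hE : d + T ^ 2 * Z ≤ E) :
    ∀ k, (p : R) ^ d ∣ F.coeff k := by
  rcases Nat.eq_zero_or_pos d with hd0 | hdpos
  · intro k; rw [hd0, pow_zero]; exact one_dvd _
  have := hR.nontriv hdpos
  obtain ⟨G, S, hFG, hS⟩ := herm hR F Z E T hZ
  rw [Polynomial.C_dvd_iff_dvd_coeff] at hS
  have hS0 : S.map (qm R p d) = 0 := by
    ext k
    rw [Polynomial.coeff_map, Polynomial.coeff_zero, qm_eq_zero]
    exact (pow_dvd_pow _ (by omega)).trans (hS k)
  have hdvd : WW (R ⧸ Ideal.span {(p : R) ^ d}) Z ^ T ∣ F.map (qm R p d) := by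
    rw [hFG, Polynomial.map_add, hS0, add_zero, Polynomial.map_mul, Polynomial.map_pow, WW_map]
    exact dvd_mul_right _ _
  have hmonT : (WW (R ⧸ Ideal.span {(p : R) ^ d}) Z ^ T).Monic := (WW_monic _ _).pow T
  have hdeg : (F.map (qm R p d)).degree < (WW (R ⧸ Ideal.span {(p : R) ^ d}) Z ^ T).degree := by
    rw [degree_eq_natDegree hmonT.ne_zero, (WW_monic _ _).natDegree_pow, WW_natDegree,
      degree_lt_iff_coeff_zero]
    intro m hm
    rw [Polynomial.coeff_map, qm_eq_zero]
    exact (pow_dvd_pow _ (by omega)).trans (hF m)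
  have h0 : F.map (qm R p d) = 0 := by
    by_contra hne
    exact hmonT.not_dvd_of_degree_lt hne hdeg hdvd
  intro k
  rw [← qm_eq_zero, ← Polynomial.coeff_map, h0, Polynomial.coeff_zero]

end Pool.Agent.Y728
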