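import Pool.Agent.H59.L.S8.Y728.GainRel

/-!
Simultaneous linear forms in logarithms at a prime of a number field (helper728).
-/

set_option autoImplicit false

namespace Pool.Agent.Y728

open Finset NumberField IsDedekindDomain Pool.Agent.H691R3 Pool.Agent.TH876.Loc

variable {K : Type} [Field K] [NumberField K]

theorem card_Mon_pos {n T0 : ℕ} (hT01 : 1 ≤ T0) : 0 < Fintype.card (Mon n T0) := by
  rw [Fintype.card_pos_iff]
  exact ⟨⟨fun _ => ⟨0, hT01⟩, by simp; omega⟩⟩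

/-- the pigeonhole principle -/
theorem pigeon (u : Pr K) {D k w h m : ℕ} (hD : Module.finrank ℚ K ≤ D) (hph : pv u ≤ 2 ^ h)
    (h2 : 2 ^ (2 * D * h) * m ≤ k.choose w) (mon : Finset (Fin k) → 𝓞 K) :
    ∃ (I' : Finset (Finset (Fin k))) (g : 𝓞 K ⧸ resI u), I'.card = m ∧
      (∀ l ∈ I', Ideal.Quotient.mk (resI u) (mon l) = g) ∧ ∀ l ∈ I', l.card = w := by
  classical
  have hfin := resI_finite u
  have : Fintype (𝓞 K ⧸ resI u) := Fintype.ofFinite _
  obtain ⟨g, -, hg⟩ := Finset.exists_le_card_fiber_of_mul_le_card_of_maps_to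
    (s := Finset.powersetCard w (univ : Finset (Fin k))) (t := (univ : Finset (𝓞 K ⧸ resI u)))
    (f := fun l => Ideal.Quotient.mk (resI u) (mon l)) (n := m)
    (fun _ _ => mem_univ _) univ_nonempty (by
      rw [Finset.card_univ, Finset.card_powersetCard, Finset.card_univ, Fintype.card_fin]
      refine le_trans (Nat.mul_le_mul_right _ ?_) h2
      rw [← Nat.card_eq_fintype_card]
      exact resI_card u hD hph)
  obtain ⟨I', hI'sub, hI'card⟩ := Finset.exists_subset_card_eq hg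
  exact ⟨I', g, hI'card, fun l hl => (mem_filter.1 (hI'sub hl)).2, fun l hl =>
    (Finset.mem_powersetCard.1 (mem_filter.1 (hI'sub hl)).1).2⟩

variable (K) in
/-- **Simultaneous linear forms at a prime `u`**: `k` integers `r i` whose powers are, up to a
large power of `p`, in the group generated by `n` integers `q j`. -/
theorem simulP : ∃ c0 : ℕ, ∀ (u : Pr K) (D n k w h hp S J Z0 N M Xs τ T0 ν Δ : ℕ),
    Module.finrank ℚ K ≤ D → pv u ≤ 2 ^ hp → 1 ≤ h → 1 ≤ w → Xs = h * w →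
    τ = 128 * ((D + 2) * Xs) → T0 = (J + 1) * τ → ν = 2 * D * hp + k * S → Δ = k * S + w →
    2 ^ (2 * D * hp) * (2 * (Fintype.card (Mon n T0) * Z0)) ≤ k.choose w →
    2 * Fintype.card (Mon n T0) ≤ 2 ^ J → 64 * ((D + 2) * (Δ * (J + 1))) ≤ Z0 →
    2 * (Fintype.card (Mon n T0) * Z0) ≤ 2 ^ N → 2 * N + c0 + 1 ≤ Z0 →
    2 + ν * τ + (τ + τ ^ 2) * (2 ^ J * Z0) ≤ M →
    ∀ (q : Fin n → 𝓞 K) (r : Fin k → 𝓞 K) (v : Fin k → ℕ) (c : Fin k → Fin n → ℤ),
    (∀ j, fv u (q j : K) = 1) → (∀ i, fv u (r i : K) = 1) → (∀ i, house (r i : K) ≤ 2 ^ h) →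
    (∀ i, 0 < v i) → (∀ i, v i ≤ 2 ^ S) → (∀ i j, |c i j| ≤ 2 ^ S) →
    (∀ i, fv u ((r i : K) ^ (v i) * ∏ j, (q j : K) ^ (c i j) - 1) ≤
      fv u ((pv u : ℕ) : K) ^ M) →
    (Function.Injective fun A : Finset (Fin k) => ∏ i ∈ A, r i) → False := by
  classical
  obtain ⟨c0, hiter⟩ := iterK K
  refine ⟨c0, ?_⟩
  intro u D n k w h hp S J Z0 N M Xs τ T0 ν Δ hD hph hh hw hXs hτ hT0 hν hΔ h2 h3 h4 h5 h6 h7
    q r v c hq1 hr1 hr hv0 hv hc hrel hinj
  obtain ⟨E, rfl⟩ : ∃ E, M = E + 2 := ⟨M - 2, by omega⟩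
  have hZ0 : 0 < Z0 := by omega
  have hXs1 : 1 ≤ Xs := by rw [hXs]; exact Nat.mul_pos hh hw
  have hτ1 : 1 ≤ τ := by
    have : 1 ≤ (D + 2) * Xs := Nat.mul_pos (by omega) hXs1
    omega
  have hT01 : 1 ≤ T0 := by rw [hT0]; exact Nat.mul_pos (by omega) hτ1
  have hMon : 0 < Fintype.card (Mon n T0) := card_Mon_pos hT01
  obtain ⟨I', g, hI'card, hIg, hIw⟩ := pigeon u hD hph h2 (fun l => ∏ i ∈ l, r i)
  have hI'pos : 0 < I'.card := by
    rw [hI'card]
    positivity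
  obtain ⟨l0, hl0⟩ := Finset.card_pos.1 hI'pos
  have hgain : Gain (Sum.inr u : Pl K) (fun l : {l // l ∈ I'} => dd v c l.1)
      (fun l : {l // l ∈ I'} => ∏ i ∈ l.1, r i) N Δ T0 τ (2 ^ J * Z0) := by
    refine gain_rel u (E := E) (ν := ν) q r v c hq1 hr1 hv0 hrel I' l0 hl0 g hIg ?_ ?_
    · calc phi u * VV v ≤ 2 ^ (2 * D * hp) * 2 ^ (k * S) :=
            Nat.mul_le_mul ((phi_le u).trans (resI_card u hD hph)) (VV_le hv)
        _ = 2 ^ ν := by rw [hν, pow_add]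
    · have e : τ * (2 ^ J * Z0) + τ ^ 2 * (2 ^ J * Z0) = (τ + τ ^ 2) * (2 ^ J * Z0) := by ring
      omega
  have hcard : Fintype.card {l // l ∈ I'} = 2 * (Fintype.card (Mon n T0) * Z0) := by
    rw [Fintype.card_coe, hI'card]
  refine hiter {l // l ∈ I'} (Sum.inr u) D n J Z0 N Δ Xs τ T0 hD hXs1 hτ hT0 hcard h3 h4 h5 h6
    (fun l => dd v c l.1) (fun l => ∏ i ∈ l.1, r i) hgain ?_ ?_ ?_
  · intro l j
    rw [hΔ]
    exact dd_le hv hc (hIw l.1 l.2) j
  · intro l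
    rw [hXs]
    exact house_mon_le r hr (hIw l.1 l.2)
  · intro l l' hll
    apply Subtype.ext
    exact hinj hll

end Pool.Agent.Y728
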